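import Mathlib

/-!
Steiner systems of strength two on a finite set of points `P` of an ambient type: basic facts.
-/

namespace Run7.h570.S2

open Finset Pointwise

/-- `B` is a Steiner system of strength two with block size `k` on the point set `P`, each point of
which is in exactly `r` blocks. -/
structure IsS2 {V : Type} [DecidableEq V] (P : Finset V) (k r : ℕ) (B : Finset (Finset V)) :
    Prop where
  sub : ∀ b ∈ B, b ⊆ P
  block_size : ∀ b ∈ B, b.card = k
  point_degree : ∀ x ∈ P, (B.filter (fun b => x ∈ b)).card = r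
  pair_degree : ∀ x ∈ P, ∀ y ∈ P, x ≠ y → (B.filter (fun b => x ∈ b ∧ y ∈ b)).card = 1

namespace IsS2

variable {V : Type} [DecidableEq V] {P : Finset V} {k r : ℕ} {B : Finset (Finset V)}

lemma exists_block (hB : IsS2 P k r B) {x y : V} (hx : x ∈ P) (hy : y ∈ P) (hxy : x ≠ y) :
    ∃ b ∈ B, x ∈ b ∧ y ∈ b := by
  have h := hB.pair_degree x hx y hy hxy
  obtain ⟨b, hb⟩ := Finset.card_pos.mp (by rw [h]; exact one_pos)
  rw [Finset.mem_filter] at hb
  exact ⟨b, hb.1, hb.2.1, hb.2.2⟩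

lemma unique_block (hB : IsS2 P k r B) {x y : V} (hxy : x ≠ y) {b c : Finset V}
    (hb : b ∈ B) (hxb : x ∈ b) (hyb : y ∈ b) (hc : c ∈ B) (hxc : x ∈ c) (hyc : y ∈ c) :
    b = c := by
  have h := hB.pair_degree x (hB.sub b hb hxb) y (hB.sub b hb hyb) hxy
  rw [Finset.card_eq_one] at h
  obtain ⟨a, ha⟩ := h
  have h1 : b ∈ B.filter (fun b => x ∈ b ∧ y ∈ b) := by
    rw [Finset.mem_filter]; exact ⟨hb, hxb, hyb⟩
  have h2 : c ∈ B.filter (fun b => x ∈ b ∧ y ∈ b) := by
    rw [Finset.mem_filter]; exact ⟨hc, hxc, hyc⟩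
  rw [ha, Finset.mem_singleton] at h1 h2
  rw [h1, h2]

/-- The quadratic identity. -/
lemma sum_sq (hB : IsS2 P k r B) (h : V → ℤ) :
    ∑ b ∈ B, (∑ x ∈ b, h x) ^ 2
      = ((r : ℤ) - 1) * ∑ x ∈ P, h x ^ 2 + (∑ x ∈ P, h x) ^ 2 := by
  have h1 : ∀ b ∈ B, (∑ x ∈ b, h x) ^ 2
      = ∑ x ∈ P, ∑ y ∈ P, (if x ∈ b ∧ y ∈ b then h x * h y else 0) := by
    intro b hb
    have h2 : ∑ x ∈ b, h x = ∑ x ∈ P, (if x ∈ b then h x else 0) := by
      rw [← Finset.sum_filter]
      congr 1
      ext x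
      rw [Finset.mem_filter]
      exact ⟨fun hx => ⟨hB.sub b hb hx, hx⟩, fun hx => hx.2⟩
    rw [h2, sq, Finset.sum_mul_sum]
    refine Finset.sum_congr rfl (fun x _ => Finset.sum_congr rfl (fun y _ => ?_))
    by_cases hx : x ∈ b <;> by_cases hy : y ∈ b <;> simp [hx, hy]
  rw [Finset.sum_congr rfl h1, Finset.sum_comm]
  have h3 : ∀ x ∈ P, ∑ b ∈ B, ∑ y ∈ P, (if x ∈ b ∧ y ∈ b then h x * h y else 0)
      = ∑ y ∈ P, (h x * h y + (if x = y then ((r : ℤ) - 1) * (h x * h y) else 0)) := by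
    intro x hx
    rw [Finset.sum_comm]
    refine Finset.sum_congr rfl (fun y hy => ?_)
    rw [← Finset.sum_filter, Finset.sum_const, nsmul_eq_mul]
    by_cases hxy : x = y
    · subst hxy
      have h4 : (B.filter (fun b => x ∈ b ∧ x ∈ b)).card = r := by
        rw [← hB.point_degree x hx]; congr 1; ext b; simp
      rw [h4]; simp; ring
    · rw [hB.pair_degree x hx y hy hxy]; simp [hxy]
  rw [Finset.sum_congr rfl h3]
  simp only [Finset.sum_add_distrib]
  have h5 : ∀ x ∈ P, ∑ y ∈ P, (if x = y then ((r : ℤ) - 1) * (h x * h y) else 0)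
      = ((r : ℤ) - 1) * h x ^ 2 := by
    intro x hx
    rw [Finset.sum_ite_eq, if_pos hx]; ring
  rw [Finset.sum_congr rfl h5, sq (∑ x ∈ P, h x), Finset.sum_mul_sum, Finset.mul_sum]
  ring

/-- Counting pairs through a point. -/
lemma card_points (hB : IsS2 P k r B) (hP : P.Nonempty) (hk : 1 ≤ k) :
    P.card = r * (k - 1) + 1 := by
  obtain ⟨x, hx⟩ := hP
  have h1 : (P.erase x).card = ∑ b ∈ B.filter (fun b => x ∈ b), (b.erase x).card := by
    rw [← Finset.card_biUnion]
    · congr 1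
      ext y
      rw [Finset.mem_biUnion, Finset.mem_erase]
      constructor
      · rintro ⟨hyx, hy⟩
        obtain ⟨b, hb, hxb, hyb⟩ := hB.exists_block hx hy (fun h => hyx h.symm)
        exact ⟨b, by rw [Finset.mem_filter]; exact ⟨hb, hxb⟩, by
          rw [Finset.mem_erase]; exact ⟨hyx, hyb⟩⟩
      · rintro ⟨b, hb, hyb⟩
        rw [Finset.mem_filter] at hb
        rw [Finset.mem_erase] at hyb
        exact ⟨hyb.1, hB.sub b hb.1 hyb.2⟩
    · intro b hb c hc hbc
      rw [Finset.mem_coe, Finset.mem_filter] at hb hc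
      show Disjoint (b.erase x) (c.erase x)
      rw [Finset.disjoint_left]
      intro y hy hy'
      rw [Finset.mem_erase] at hy hy'
      exact hbc (hB.unique_block hy.1 hb.1 hy.2 hb.2 hc.1 hy'.2 hc.2)
  rw [Finset.card_erase_of_mem hx, Finset.sum_congr rfl (g := fun _ => k - 1)] at h1
  · rw [Finset.sum_const, hB.point_degree x hx, smul_eq_mul] at h1
    have := Finset.card_pos.mpr ⟨x, hx⟩
    omega
  · intro b hb
    rw [Finset.mem_filter] at hb
    rw [Finset.card_erase_of_mem hb.2, hB.block_size b hb.1]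

/-- Counting incident pairs. -/
lemma card_blocks (hB : IsS2 P k r B) : B.card * k = P.card * r := by
  have h1 : ∑ b ∈ B, b.card = B.card * k := by
    rw [Finset.sum_const_nat (fun b hb => hB.block_size b hb)]
  have h2 : ∑ b ∈ B, b.card = ∑ x ∈ P, (B.filter (fun b => x ∈ b)).card := by
    have h3 : ∀ b ∈ B, b.card = ∑ x ∈ P, (if x ∈ b then 1 else 0) := by
      intro b hb
      rw [← Finset.card_filter]
      congr 1
      ext x
      rw [Finset.mem_filter]
      exact ⟨fun hx => ⟨hB.sub b hb hx, hx⟩, fun hx => hx.2⟩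
    rw [Finset.sum_congr rfl h3, Finset.sum_comm]
    refine Finset.sum_congr rfl (fun x _ => ?_)
    rw [Finset.card_filter]
  rw [← h1, h2, Finset.sum_const_nat (fun x hx => hB.point_degree x hx)]

end IsS2

end Run7.h570.S2
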