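import Mathlib
import Pool.Agent.Run7.h570.Reverse
import Pool.Agent.Run7.h570.S2.Basic

/-!
Involutions with exactly one fixed point in Steiner systems of strength two, and the consequence
for Steiner systems of any strength.
-/

namespace Run7.h570.S2

open Finset

variable {V : Type} [Fintype V] [DecidableEq V] {P : Finset V} {k r : ℕ} {B : Finset (Finset V)}

theorem dvd_of_one_fixed (hk : k % 2 = 1) (hB : IsS2 P k r B) (τ : V → V)
    (hτ : ∀ x, τ (τ x) = x) (hτB : ∀ b ∈ B, b.image τ ∈ B) (hτP : ∀ x ∈ P, τ x ∈ P)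
    (p : V) (hpP : p ∈ P) (hpfix : τ p = p) (hpuniq : ∀ x ∈ P, τ x = x → x = p) :
    (16 : ℤ) ∣ (r : ℤ) * (r - 1) * ((k : ℤ) - 1) ^ 2 := by
  classical
  have hinj : Function.Injective τ := fun x y hxy => by rw [← hτ x, hxy, hτ y]
  have himim : ∀ b : Finset V, (b.image τ).image τ = b := by
    intro b; rw [Finset.image_image]
    have : τ ∘ τ = id := by ext x; simp [hτ x]
    rw [this, Finset.image_id]
  have hcardP := hB.card_points ⟨p, hpP⟩ (by omega)
  have hcardB := hB.card_blocks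
  obtain ⟨h, h0, h1, hneg⟩ := exists_sign τ hτ
  -- blocks fixed by τ contain p
  have hfixmem : ∀ b ∈ B, b.image τ = b → p ∈ b := by
    intro b hb hfix
    by_contra hpb
    have hmem : ∀ a ∈ b, τ a ∈ b := by
      intro a ha
      have : τ a ∈ b.image τ := Finset.mem_image_of_mem τ ha
      rwa [hfix] at this
    have h2 : (2 : ℤ) ∣ ∑ a ∈ b, (1 : ℤ) :=
      even_sum_of_invol b τ hmem (fun a _ => hτ a)
        (fun a ha hfa => hpb (by rw [← hpuniq a (hB.sub b hb ha) hfa]; exact ha))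
        (fun _ => 1) (fun _ _ => rfl)
    rw [Finset.sum_const, nsmul_eq_mul, mul_one, hB.block_size b hb] at h2
    omega
  have htot0 : ∀ b : Finset V, b.image τ = b → ∑ x ∈ b, h x = 0 := by
    intro b hfix
    have h2 : ∑ x ∈ b, h x = ∑ x ∈ b.image τ, h x := by rw [hfix]
    rw [Finset.sum_image (fun x _ y _ hxy => hinj hxy)] at h2
    simp only [hneg, Finset.sum_neg_distrib] at h2
    omega
  -- blocks through p are fixed by τ
  have hpfixed : ∀ b ∈ B, p ∈ b → b.image τ = b := by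
    intro b hb hpb
    by_cases hcard : 1 < b.card
    · obtain ⟨x, hx, hxp⟩ := Finset.exists_mem_ne hcard p
      have hxP := hB.sub b hb hx
      have hxτ : x ≠ τ x := fun hh => hxp (hpuniq x hxP hh.symm)
      obtain ⟨c, hc, hxc, hτxc⟩ := hB.exists_block hxP (hτP x hxP) hxτ
      have hcfix : c.image τ = c := by
        refine hB.unique_block hxτ (hτB c hc) ?_ ?_ hc hxc hτxc
        · rw [Finset.mem_image]; exact ⟨τ x, hτxc, hτ x⟩
        · exact Finset.mem_image_of_mem τ hxc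
      have hpc : p ∈ c := hfixmem c hc hcfix
      have : b = c := hB.unique_block hxp hb hx hpb hc hxc hpc
      rw [this]; exact hcfix
    · have hb1 : b = {p} := by
        have h2 : b.card = 1 := by
          have := Finset.card_pos.mpr ⟨p, hpb⟩
          omega
        obtain ⟨a, ha⟩ := Finset.card_eq_one.mp h2
        rw [ha, Finset.mem_singleton] at hpb
        rw [ha, hpb]
      rw [hb1, Finset.image_singleton, hpfix]
  have htot : ∑ x ∈ P, h x = 0 := by
    apply htot0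
    apply Finset.eq_of_subset_of_card_le
    · intro y hy
      obtain ⟨x, hx, rfl⟩ := Finset.mem_image.mp hy
      exact hτP x hx
    · rw [Finset.card_image_of_injective _ hinj]
  have hsqtot : ∑ x ∈ P, h x ^ 2 = (r : ℤ) * (k - 1) := by
    have h2 : ∀ x ∈ P, h x ^ 2 = 1 - (if x = p then 1 else 0) := by
      intro x hx
      by_cases hxp : x = p
      · rw [hxp, h0 p hpfix]; simp
      · rcases h1 x (fun hh => hxp (hpuniq x hx hh)) with h3 | h3 <;> rw [h3] <;> simp [hxp]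
    rw [Finset.sum_congr rfl h2, Finset.sum_sub_distrib, Finset.sum_ite_eq', if_pos hpP,
      Finset.sum_const, nsmul_eq_mul, mul_one, hcardP]
    push_cast [show 1 ≤ k by omega]
    ring
  have hmain := hB.sum_sq h
  rw [htot, hsqtot] at hmain
  -- split blocks
  have hsplit : ∑ b ∈ B, (∑ x ∈ b, h x) ^ 2
      = ∑ b ∈ B.filter (fun b => p ∉ b), (∑ x ∈ b, h x) ^ 2 := by
    rw [Finset.sum_filter]
    refine Finset.sum_congr rfl (fun b hb => ?_)
    by_cases hpb : p ∈ b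
    · rw [htot0 b (hpfixed b hb hpb)]; simp [hpb]
    · simp [hpb]
  set S := B.filter (fun b => p ∉ b) with hS
  have hScard : (S.card : ℤ) = B.card - r := by
    have h2 := Finset.card_filter_add_card_filter_not (s := B) (fun b => p ∈ b)
    rw [hB.point_degree p hpP] at h2
    rw [hS]; omega
  have hoddsq : ∀ b ∈ S, ∃ t : ℤ, (∑ x ∈ b, h x) ^ 2 = 8 * t + 1 := by
    intro b hb
    rw [hS, Finset.mem_filter] at hb
    have h2 : (∑ x ∈ b, h x) % 2 = (b.card : ℤ) % 2 :=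
      sum_odd h (fun x hx => h1 x (fun hh => hb.2 (by
        rw [← hpuniq x (hB.sub b hb.1 hx) hh]; exact hx)))
    rw [hB.block_size b hb.1] at h2
    have h3 : (∑ x ∈ b, h x) % 2 = 1 := by omega
    obtain ⟨m, hm⟩ : ∃ m, ∑ x ∈ b, h x = 2 * m + 1 := ⟨(∑ x ∈ b, h x) / 2, by omega⟩
    obtain ⟨n, hn⟩ : ∃ n, m * (m + 1) = 2 * n := by
      rcases Int.even_mul_succ_self m with ⟨n, hn⟩
      exact ⟨n, by rw [hn]; ring⟩
    exact ⟨n, by rw [hm]; nlinarith [hn]⟩
  have h16 : (16 : ℤ) ∣ ∑ b ∈ S, ((∑ x ∈ b, h x) ^ 2 - 1) := by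
    have h2 : (2 : ℤ) ∣ ∑ b ∈ S, ((∑ x ∈ b, h x) ^ 2 - 1) / 8 := by
      refine even_sum_of_invol S (fun b => b.image τ) ?_ (fun b _ => himim b) ?_ _ ?_
      · intro b hb
        rw [hS, Finset.mem_filter] at hb ⊢
        refine ⟨hτB b hb.1, fun hpb => hb.2 ?_⟩
        obtain ⟨y, hy, hyp⟩ := Finset.mem_image.mp hpb
        have : y = p := hinj (by rw [hyp, hpfix])
        rwa [← this]
      · intro b hb hfix
        rw [hS, Finset.mem_filter] at hb
        exact hb.2 (hfixmem b hb.1 hfix)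
      · intro b _
        have : ∑ x ∈ b.image τ, h x = - ∑ x ∈ b, h x := by
          rw [Finset.sum_image (fun x _ y _ hxy => hinj hxy)]
          simp only [hneg, Finset.sum_neg_distrib]
        simp only [this, neg_sq]
    have h3 : ∑ b ∈ S, ((∑ x ∈ b, h x) ^ 2 - 1) = 8 * ∑ b ∈ S, ((∑ x ∈ b, h x) ^ 2 - 1) / 8 := by
      rw [Finset.mul_sum]
      refine Finset.sum_congr rfl (fun b hb => ?_)
      obtain ⟨t, ht⟩ := hoddsq b hb
      rw [ht]; omega
    rw [h3]
    obtain ⟨c, hc⟩ := h2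
    exact ⟨c, by rw [hc]; ring⟩
  rw [Finset.sum_sub_distrib, ← hsplit, hmain] at h16
  simp only [Finset.sum_const, nsmul_eq_mul, mul_one, hScard] at h16
  have hcB : (B.card : ℤ) * k = (r * (k - 1) + 1) * r := by
    have h2 : ((B.card * k : ℕ) : ℤ) = ((P.card * r : ℕ) : ℤ) := by rw [hcardB]
    rw [hcardP] at h2
    push_cast [show 1 ≤ k by omega] at h2
    exact h2
  obtain ⟨c, hc⟩ := h16
  refine ⟨k * c, ?_⟩
  have h2 : (k : ℤ) * (((r : ℤ) - 1) * (r * (k - 1)) + 0 ^ 2 - (B.card - r)) = k * (16 * c) := by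
    rw [hc]
  linear_combination h2 + hcB

/-- Consequence modulo 4. -/
theorem mod_four_of_one_fixed (hk : k % 4 = 3) (hB : IsS2 P k r B) (τ : V → V)
    (hτ : ∀ x, τ (τ x) = x) (hτB : ∀ b ∈ B, b.image τ ∈ B) (hτP : ∀ x ∈ P, τ x ∈ P)
    (p : V) (hpP : p ∈ P) (hpfix : τ p = p) (hpuniq : ∀ x ∈ P, τ x = x → x = p) :
    r % 4 ≤ 1 := by
  have h1 := dvd_of_one_fixed (by omega) hB τ hτ hτB hτP p hpP hpfix hpuniq
  obtain ⟨m, hm⟩ : ∃ m, k = 4 * m + 3 := ⟨k / 4, by omega⟩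
  obtain ⟨c, hc⟩ := h1
  have h2 : ((k : ℤ) - 1) ^ 2 = 4 * (2 * (2 * m ^ 2 + 2 * m) + 1) := by
    rw [hm]; push_cast; ring
  rw [h2] at hc
  have h3 : (4 : ℤ) ∣ (r : ℤ) * (r - 1) := by
    have h4 : (r : ℤ) * (r - 1) * (2 * (2 * m ^ 2 + 2 * m) + 1) = 4 * c := by linarith
    have h5 : IsCoprime (4 : ℤ) (2 * (2 * m ^ 2 + 2 * m) + 1) := by
      rw [show (4 : ℤ) = 2 ^ 2 by norm_num]
      apply IsCoprime.pow_left
      exact ⟨-(2 * m ^ 2 + 2 * m), 1, by ring⟩
    exact h5.dvd_of_dvd_mul_right ⟨c, h4⟩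
  by_contra hcon
  push Not at hcon
  have h6 : r % 4 = 2 ∨ r % 4 = 3 := by omega
  obtain ⟨d, hd⟩ := h3
  rcases h6 with h6 | h6
  · obtain ⟨j, hj⟩ : ∃ j, r = 4 * j + 2 := ⟨r / 4, by omega⟩
    rw [hj] at hd
    push_cast at hd
    have : (4 * (j : ℤ) + 2) * (4 * j + 2 - 1) = 4 * (4 * j ^ 2 + 3 * j) + 2 := by ring
    omega
  · obtain ⟨j, hj⟩ : ∃ j, r = 4 * j + 3 := ⟨r / 4, by omega⟩
    rw [hj] at hd
    push_cast at hd
    have : (4 * (j : ℤ) + 3) * (4 * j + 3 - 1) = 4 * (4 * j ^ 2 + 5 * j + 1) + 2 := by ring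
    omega

end Run7.h570.S2
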