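import Mathlib
import Pool.Agent.Run7.h570.S2.Basic
import Pool.Agent.Run7.h570.S2.Reverse

/-!
Steiner systems of any strength, their derived systems of strength two.
-/

namespace Run7.h570.S2

open Finset

/-- `IsSteiner t q B`: the finite family `B` of subsets of the finite set `V` consists of sets with
`q` elements, and every subset of `V` with `t` elements is contained in exactly one member of `B`. -/
def IsSteiner {V : Type} (t q : ℕ) (B : Finset (Finset V)) : Prop :=
  (∀ b ∈ B, b.card = q) ∧ ∀ T : Finset V, T.card = t → ∃! b, b ∈ B ∧ T ⊆ b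

/-- Constructor for `IsS2`. -/
lemma isS2_of_pairs {V : Type} [DecidableEq V] (P : Finset V) (k : ℕ) (hk : 2 ≤ k)
    (B : Finset (Finset V)) (hsub : ∀ b ∈ B, b ⊆ P) (hsize : ∀ b ∈ B, b.card = k)
    (hpair : ∀ x ∈ P, ∀ y ∈ P, x ≠ y → ∃! b, b ∈ B ∧ x ∈ b ∧ y ∈ b) :
    IsS2 P k ((P.card - 1) / (k - 1)) B := by
  refine ⟨hsub, hsize, ?_, ?_⟩
  · intro x hx
    have h1 : (P.erase x).card = ∑ b ∈ B.filter (fun b => x ∈ b), (b.erase x).card := by
      rw [← Finset.card_biUnion]
      · congr 1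
        ext y
        rw [Finset.mem_biUnion, Finset.mem_erase]
        constructor
        · rintro ⟨hyx, hy⟩
          obtain ⟨b, ⟨hb, hxb, hyb⟩, _⟩ := hpair x hx y hy (fun h => hyx h.symm)
          exact ⟨b, by rw [Finset.mem_filter]; exact ⟨hb, hxb⟩, by
            rw [Finset.mem_erase]; exact ⟨hyx, hyb⟩⟩
        · rintro ⟨b, hb, hyb⟩
          rw [Finset.mem_filter] at hb
          rw [Finset.mem_erase] at hyb
          exact ⟨hyb.1, hsub b hb.1 hyb.2⟩
      · intro b hb c hc hbc
        rw [Finset.mem_coe, Finset.mem_filter] at hb hc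
        show Disjoint (b.erase x) (c.erase x)
        rw [Finset.disjoint_left]
        intro y hy hy'
        rw [Finset.mem_erase] at hy hy'
        obtain ⟨d, _, hd⟩ := hpair x hx y (hsub b hb.1 hy.2) (fun h => hy.1 h.symm)
        exact hbc (by rw [hd b ⟨hb.1, hb.2, hy.2⟩, hd c ⟨hc.1, hc.2, hy'.2⟩])
    rw [Finset.card_erase_of_mem hx, Finset.sum_congr rfl (g := fun _ => k - 1)] at h1
    · rw [Finset.sum_const, smul_eq_mul] at h1
      rw [h1, Nat.mul_div_cancel _ (by omega)]
    · intro b hb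
      rw [Finset.mem_filter] at hb
      rw [Finset.card_erase_of_mem hb.2, hsize b hb.1]
  · intro x hx y hy hxy
    obtain ⟨d, hd, hd'⟩ := hpair x hx y hy hxy
    rw [Finset.card_eq_one]
    refine ⟨d, ?_⟩
    ext b
    rw [Finset.mem_filter, Finset.mem_singleton]
    constructor
    · rintro ⟨hb, hxb, hyb⟩
      exact hd' b ⟨hb, hxb, hyb⟩
    · rintro rfl
      exact hd

lemma isS2_of_isSteiner {V : Type} [Fintype V] [DecidableEq V] {q : ℕ} (hq : 2 ≤ q)
    {B : Finset (Finset V)} (hB : IsSteiner 2 q B) :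
    IsS2 (univ : Finset V) q ((Fintype.card V - 1) / (q - 1)) B := by
  have h := isS2_of_pairs (univ : Finset V) q hq B (fun b _ => Finset.subset_univ b) hB.1 (by
    intro x _ y _ hxy
    obtain ⟨b, ⟨hb, hTb⟩, hu⟩ := hB.2 {x, y} (Finset.card_pair hxy)
    refine ⟨b, ⟨hb, hTb (by simp), hTb (by simp)⟩, ?_⟩
    rintro c ⟨hc, hxc, hyc⟩
    apply hu
    refine ⟨hc, ?_⟩
    intro z hz
    rw [Finset.mem_insert, Finset.mem_singleton] at hz
    rcases hz with rfl | rfl
    · exact hxc
    · exact hyc)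
  rwa [Finset.card_univ] at h

/-- **Reverse Steiner systems of any strength.** -/
theorem reverse_steiner {V : Type} [Fintype V] [DecidableEq V] {t q : ℕ} (ht : 2 ≤ t)
    (htq : t < q) (hq : (q - t) % 4 = 1) {B : Finset (Finset V)} (hB : IsSteiner t q B)
    (τ : V → V) (hτ : ∀ x, τ (τ x) = x) (hτB : ∀ b ∈ B, b.image τ ∈ B)
    (hfix : (univ.filter (fun x => τ x = x)).card = t - 1) :
    (Fintype.card V + 1 - t) / (q + 1 - t) % 4 ≤ 1 := by
  classical
  have hinj : Function.Injective τ := fun x y hxy => by rw [← hτ x, hxy, hτ y]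
  obtain ⟨p, hp⟩ := Finset.card_pos.mp (show 0 < (univ.filter (fun x => τ x = x)).card by omega)
  set Z := (univ.filter (fun x => τ x = x)).erase p with hZ
  have hZcard : Z.card = t - 2 := by
    rw [hZ, Finset.card_erase_of_mem hp, hfix]; omega
  have hpfix : τ p = p := (Finset.mem_filter.mp hp).2
  have hpZ : p ∉ Z := by rw [hZ]; exact Finset.notMem_erase p _
  have hZfix : ∀ z ∈ Z, τ z = z := by
    intro z hz
    rw [hZ, Finset.mem_erase, Finset.mem_filter] at hz
    exact hz.2.2
  set P := (univ : Finset V) \ Z with hP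
  let B' : Finset (Finset V) := (B.filter (fun b => Z ⊆ b)).image (fun b => b \ Z)
  have hB'mem : ∀ c, c ∈ B' ↔ ∃ b ∈ B, Z ⊆ b ∧ b \ Z = c := by
    intro c
    simp only [B', Finset.mem_image, Finset.mem_filter]
    constructor
    · rintro ⟨b, ⟨hb, hZb⟩, rfl⟩; exact ⟨b, hb, hZb, rfl⟩
    · rintro ⟨b, hb, hZb, rfl⟩; exact ⟨b, ⟨hb, hZb⟩, rfl⟩
  have hS2 : IsS2 P (q - (t - 2)) ((P.card - 1) / (q - (t - 2) - 1)) B' := by
    refine isS2_of_pairs P _ (by omega) B' ?_ ?_ ?_
    · intro c hc
      obtain ⟨b, _, _, rfl⟩ := (hB'mem c).mp hc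
      exact Finset.sdiff_subset_sdiff (Finset.subset_univ b) (Finset.Subset.refl Z)
    · intro c hc
      obtain ⟨b, hb, hZb, rfl⟩ := (hB'mem c).mp hc
      rw [Finset.card_sdiff_of_subset hZb, hB.1 b hb, hZcard]
    · intro x hx y hy hxy
      rw [hP, Finset.mem_sdiff] at hx hy
      have hTcard : (insert x (insert y Z)).card = t := by
        rw [Finset.card_insert_of_notMem, Finset.card_insert_of_notMem hy.2, hZcard]
        · omega
        · rw [Finset.mem_insert]
          rintro (h | h)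
          · exact hxy h
          · exact hx.2 h
      obtain ⟨b, ⟨hb, hTb⟩, hu⟩ := hB.2 _ hTcard
      refine ⟨b \ Z, ⟨(hB'mem _).mpr ⟨b, hb, ?_, rfl⟩, ?_, ?_⟩, ?_⟩
      · intro z hz; exact hTb (by simp [hz])
      · rw [Finset.mem_sdiff]; exact ⟨hTb (by simp), hx.2⟩
      · rw [Finset.mem_sdiff]; exact ⟨hTb (by simp), hy.2⟩
      · rintro c ⟨hc, hxc, hyc⟩
        obtain ⟨b', hb', hZb', rfl⟩ := (hB'mem c).mp hc
        have : b' = b := by
          apply hu
          refine ⟨hb', ?_⟩
          intro z hz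
          rw [Finset.mem_insert, Finset.mem_insert] at hz
          rcases hz with rfl | rfl | hz
          · exact (Finset.mem_sdiff.mp hxc).1
          · exact (Finset.mem_sdiff.mp hyc).1
          · exact hZb' hz
        rw [this]
  have hfin := mod_four_of_one_fixed (k := q - (t - 2)) (by omega) hS2 τ hτ ?_ ?_ p ?_ hpfix ?_
  · have h1 : P.card = Fintype.card V - (t - 2) := by
      rw [hP, Finset.card_sdiff_of_subset (Finset.subset_univ Z), Finset.card_univ, hZcard]
    have h2 : t - 1 ≤ Fintype.card V := by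
      rw [← hfix, ← Finset.card_univ]; exact Finset.card_filter_le _ _
    have h3 : P.card - 1 = Fintype.card V + 1 - t := by omega
    have h4 : q - (t - 2) - 1 = q + 1 - t := by omega
    rwa [h3, h4] at hfin
  · intro c hc
    obtain ⟨b, hb, hZb, rfl⟩ := (hB'mem c).mp hc
    rw [hB'mem]
    refine ⟨b.image τ, hτB b hb, ?_, ?_⟩
    · intro z hz
      rw [Finset.mem_image]
      exact ⟨z, hZb hz, hZfix z hz⟩
    · ext y
      rw [Finset.mem_sdiff, Finset.mem_image, Finset.mem_image]
      constructor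
      · rintro ⟨⟨x, hx, rfl⟩, hyZ⟩
        refine ⟨x, ?_, rfl⟩
        rw [Finset.mem_sdiff]
        exact ⟨hx, fun h => hyZ (by rw [hZfix x h]; exact h)⟩
      · rintro ⟨x, hx, rfl⟩
        rw [Finset.mem_sdiff] at hx
        refine ⟨⟨x, hx.1, rfl⟩, fun h => hx.2 ?_⟩
        have h1 := hZfix _ h
        have h2 : τ x = x := hinj h1
        rw [h2] at h; exact h
  · intro x hx
    rw [hP, Finset.mem_sdiff] at hx ⊢
    refine ⟨Finset.mem_univ _, fun h => hx.2 ?_⟩
    have h1 := hZfix _ h
    have h2 : τ x = x := hinj h1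
    rw [h2] at h; exact h
  · rw [hP, Finset.mem_sdiff]; exact ⟨Finset.mem_univ p, hpZ⟩
  · intro x hx hτx
    by_contra hxp
    rw [hP, Finset.mem_sdiff] at hx
    apply hx.2
    rw [hZ, Finset.mem_erase, Finset.mem_filter]
    exact ⟨hxp, Finset.mem_univ x, hτx⟩

end Run7.h570.S2
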