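import Mathlib
import Pool.Agent.Run7.h570.Orbits
import Pool.Agent.Run7.h570.Reverse
import Pool.Agent.Run7.h570.S2.Basic

/-!
Groups of automorphisms of a Steiner system of strength two which fix a point and are regular on
the blocks through it.
-/

namespace Run7.h570.S2

open Finset Pointwise

variable {V : Type} [Fintype V] [DecidableEq V] {k r : ℕ} {B : Finset (Finset V)}

/-- `T` is a group of `r` automorphisms, fixing `p` and transitive on the blocks through `p`. -/
structure RegAt (B : Finset (Finset V)) (r : ℕ) (T : Subgroup (Equiv.Perm V)) (p : V) : Prop where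
  card : Nat.card T = r
  aut : ∀ t ∈ T, ∀ b ∈ B, t • b ∈ B
  fix : ∀ t ∈ T, t p = p
  trans : ∀ b ∈ B, p ∈ b → ∀ c ∈ B, p ∈ c → ∃ t ∈ T, t • b = c

lemma smul_mem_iff (t : Equiv.Perm V) (b : Finset V) (x : V) : t x ∈ t • b ↔ x ∈ b := by
  have := Finset.smul_mem_smul_finset_iff (s := b) (b := x) t
  rwa [Equiv.Perm.smul_def] at this

lemma sum_smul (t : Equiv.Perm V) (b : Finset V) (h : V → ℤ) :
    ∑ x ∈ t • b, h x = ∑ x ∈ b, h (t x) := by
  have : t • b = b.image (fun x => t x) := rfl
  rw [this, Finset.sum_image (fun x _ y _ hxy => t.injective hxy)]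

lemma card_smul (t : Equiv.Perm V) (b : Finset V) : (t • b).card = b.card := by
  have : t • b = b.image (fun x => t x) := rfl
  rw [this, Finset.card_image_of_injective _ t.injective]

namespace RegAt

variable {T : Subgroup (Equiv.Perm V)} {p : V}

lemma p_mem (hT : RegAt B r T p) {t : Equiv.Perm V} (ht : t ∈ T) {b : Finset V} (hb : p ∈ b) :
    p ∈ t • b := by
  have := (smul_mem_iff t b p).mpr hb
  rwa [hT.fix t ht] at this

lemma p_mem_iff (hT : RegAt B r T p) {t : Equiv.Perm V} (ht : t ∈ T) (b : Finset V) :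
    p ∈ t • b ↔ p ∈ b := by
  have := smul_mem_iff t b p
  rwa [hT.fix t ht] at this

/-- `T` is regular on the blocks through `p`. -/
lemma free_through (hB : IsS2 (univ : Finset V) k r B) (hT : RegAt B r T p) {b : Finset V}
    (hb : b ∈ B) (hpb : p ∈ b) {t : Equiv.Perm V} (ht : t ∈ T) (h : t • b = b) : t = 1 := by
  classical
  haveI : Fintype T := Fintype.ofFinite T
  have hcard : (univ : Finset T).card = r := by
    rw [Finset.card_univ, ← Nat.card_eq_fintype_card, hT.card]
  have himg : (univ : Finset T).image (fun s : T => (s : Equiv.Perm V) • b) =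
      B.filter (fun b => p ∈ b) := by
    ext c
    rw [Finset.mem_image, Finset.mem_filter]
    constructor
    · rintro ⟨s, _, rfl⟩
      exact ⟨hT.aut s s.2 b hb, hT.p_mem s.2 hpb⟩
    · rintro ⟨hc, hpc⟩
      obtain ⟨s, hs, hsc⟩ := hT.trans b hb hpb c hc hpc
      exact ⟨⟨s, hs⟩, Finset.mem_univ _, hsc⟩
  have hinj : Set.InjOn (fun s : T => (s : Equiv.Perm V) • b) ((univ : Finset T) : Set T) := by
    rw [← Finset.card_image_iff, himg, hcard, hB.point_degree p (Finset.mem_univ p)]
  have h1 : (⟨t, ht⟩ : T) = 1 := by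
    apply hinj (Finset.mem_coe.mpr (Finset.mem_univ _)) (Finset.mem_coe.mpr (Finset.mem_univ _))
    show t • b = ((1 : T) : Equiv.Perm V) • b
    rw [h]; simp
  exact congrArg Subtype.val h1

/-- `T` is semiregular on the points other than `p`. -/
lemma free_points (hB : IsS2 (univ : Finset V) k r B) (hT : RegAt B r T p) {x : V} (hx : x ≠ p)
    {t : Equiv.Perm V} (ht : t ∈ T) (h : t x = x) : t = 1 := by
  obtain ⟨b, hb, hpb, hxb⟩ := hB.exists_block (Finset.mem_univ p) (Finset.mem_univ x) hx.symm
  refine hT.free_through hB hb hpb ht ?_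
  refine hB.unique_block hx.symm (hT.aut t ht b hb) (hT.p_mem ht hpb) ?_ hb hpb hxb
  have := (smul_mem_iff t b x).mpr hxb
  rwa [h] at this

/-- If the order is prime to the block size, `T` is semiregular on the blocks. -/
lemma free_blocks (hB : IsS2 (univ : Finset V) k r B) (hT : RegAt B r T p)
    (hcop : Nat.Coprime r k) {c : Finset V} (hc : c ∈ B)
    {t : Equiv.Perm V} (ht : t ∈ T) (h : t • c = c) : t = 1 := by
  classical
  by_cases hpc : p ∈ c
  · exact hT.free_through hB hc hpc ht h
  by_contra hne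
  have hord : orderOf t ≠ 1 := fun h1 => hne (orderOf_eq_one_iff.mp h1)
  have hpos : 0 < orderOf t := orderOf_pos t
  set q := (orderOf t).minFac with hq
  have hqp : q.Prime := Nat.minFac_prime hord
  have hqd : q ∣ orderOf t := Nat.minFac_dvd _
  set s := t ^ (orderOf t / q) with hs
  have hsT : s ∈ T := T.pow_mem ht _
  have hsord : orderOf s = q := by
    rw [hs]
    exact orderOf_pow_orderOf_div hpos.ne' hqd
  have hs1 : s ≠ 1 := by
    intro h1
    rw [h1, orderOf_one] at hsord
    exact hqp.one_lt.ne hsord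
  have hsc : s • c = c := by
    have : s ∈ MulAction.stabilizer (Equiv.Perm V) c :=
      Subgroup.pow_mem _ (MulAction.mem_stabilizer_iff.mpr h) _
    exact MulAction.mem_stabilizer_iff.mp this
  have hdvd : q ∣ c.card := by
    refine prime_dvd_card_of_free hqp c s ?_ ?_ ?_
    · intro x hx
      have := (smul_mem_iff s c x).mpr hx
      rwa [hsc] at this
    · intro x _
      rw [← Equiv.Perm.coe_pow, ← hsord, pow_orderOf_eq_one]; rfl
    · intro x hx hfix
      exact hs1 (hT.free_points hB (fun hxp => hpc (by rw [← hxp]; exact hx)) hsT hfix)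
  rw [hB.block_size c hc] at hdvd
  have hdvd2 : q ∣ r := by
    rw [← hT.card]
    exact hqd.trans (Subgroup.orderOf_dvd_natCard T ht)
  have := Nat.dvd_gcd hdvd2 hdvd
  rw [hcop] at this
  exact hqp.one_lt.ne' (Nat.dvd_one.mp this)

omit [Fintype V] in
/-- An element of odd order squaring to one. -/
lemma sq_one (hT : RegAt B r T p) (hodd : r % 2 = 1) {t : Equiv.Perm V} (ht : t ∈ T)
    (h : t * t = 1) : t = 1 := by
  have h1 : orderOf t ∣ 2 := orderOf_dvd_of_pow_eq_one (by rw [sq]; exact h)
  have h2 : orderOf t ∣ r := by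
    rw [← hT.card]; exact Subgroup.orderOf_dvd_natCard T ht
  have h3 : orderOf t ∣ Nat.gcd 2 r := Nat.dvd_gcd h1 h2
  have h4 : Nat.gcd 2 r = 1 := by
    rw [Nat.gcd_rec, hodd, Nat.gcd_one_left]
  rw [h4] at h3
  exact orderOf_eq_one_iff.mp (Nat.dvd_one.mp h3)

omit [Fintype V] in
/-- There is a nontrivial element. -/
lemma exists_ne_one (hT : RegAt B r T p) (hr : 1 < r) : ∃ t ∈ T, t ≠ 1 := by
  by_contra hcon
  push Not at hcon
  have : T = ⊥ := by
    rw [eq_bot_iff]
    intro t ht
    rw [Subgroup.mem_bot]; exact hcon t ht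
  have h1 := hT.card
  rw [this, Subgroup.card_bot] at h1
  omega

end RegAt

/-- An involution of a finset with an odd number of elements has a fixed point. -/
lemma exists_fixed_of_odd {α : Type} [DecidableEq α] (S : Finset α) (g : α → α)
    (hg : ∀ a ∈ S, g a ∈ S) (hgg : ∀ a ∈ S, g (g a) = a) (hodd : S.card % 2 = 1) :
    ∃ a ∈ S, g a = a := by
  by_contra hcon
  push Not at hcon
  have h := even_sum_of_invol S g hg hgg hcon (fun _ => 1) (fun _ _ => rfl)
  rw [Finset.sum_const, nsmul_eq_mul, mul_one] at h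
  omega

/-- A fixed point free involution: even cardinality. -/
lemma even_of_free {α : Type} [DecidableEq α] (S : Finset α) (g : α → α)
    (hg : ∀ a ∈ S, g a ∈ S) (hgg : ∀ a ∈ S, g (g a) = a) (hne : ∀ a ∈ S, g a ≠ a) :
    S.card % 2 = 0 := by
  have h := even_sum_of_invol S g hg hgg hne (fun _ => 1) (fun _ _ => rfl)
  rw [Finset.sum_const, nsmul_eq_mul, mul_one] at h
  omega

end Run7.h570.S2
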