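import Mathlib
import Pool.Agent.Run7.h570.S2.RegAt

/-!
A group of automorphisms regular on the blocks through a point and inverted by an involution.
-/

namespace Run7.h570.S2

open Finset Pointwise

variable {V : Type} [Fintype V] [DecidableEq V] {k r : ℕ} {B : Finset (Finset V)}
  {T : Subgroup (Equiv.Perm V)} {p : V}

/-- `τ` is an involutory automorphism inverting `T`. -/
structure Inverts (B : Finset (Finset V)) (T : Subgroup (Equiv.Perm V)) (τ : Equiv.Perm V) :
    Prop where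
  invol : ∀ x, τ (τ x) = x
  aut : ∀ b ∈ B, τ • b ∈ B
  inv : ∀ t ∈ T, ∀ x, τ (t x) = t⁻¹ (τ x)

namespace Inverts

variable {τ : Equiv.Perm V}

omit [Fintype V] [DecidableEq V] in
lemma smul_smul_self [DecidableEq V] (hτ : Inverts B T τ) (b : Finset V) : τ • τ • b = b := by
  rw [smul_smul]
  have : τ * τ = 1 := by
    ext x; exact hτ.invol x
  rw [this, one_smul]

omit [Fintype V] in
lemma smul_comm' (hτ : Inverts B T τ) {t : Equiv.Perm V} (ht : t ∈ T) (b : Finset V) :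
    τ • t • b = t⁻¹ • τ • b := by
  rw [smul_smul, smul_smul]
  have : τ * t = t⁻¹ * τ := by
    ext x; exact hτ.inv t ht x
  rw [this]

/-- `τ` fixes `p`. -/
lemma fix_p (hB : IsS2 (univ : Finset V) k r B) (hT : RegAt B r T p) (hτ : Inverts B T τ)
    (hr : 1 < r) : τ p = p := by
  obtain ⟨t, ht, ht1⟩ := hT.exists_ne_one hr
  by_contra hne
  apply ht1
  refine hT.free_points hB hne ht ?_
  have h := hτ.inv t⁻¹ (T.inv_mem ht) p
  rw [hT.fix _ (T.inv_mem ht), inv_inv] at h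
  exact h.symm

/-- Two blocks in the same orbit of `T` that are both fixed by `τ` coincide. -/
lemma unique_fixed (hB : IsS2 (univ : Finset V) k r B) (hT : RegAt B r T p) (hτ : Inverts B T τ)
    (hodd : r % 2 = 1) (hcop : Nat.Coprime r k) {b : Finset V} (hb : b ∈ B) (hτb : τ • b = b)
    {t : Equiv.Perm V} (ht : t ∈ T) (hτtb : τ • t • b = t • b) : t = 1 := by
  apply hT.sq_one hodd ht
  refine hT.free_blocks hB hcop hb (T.mul_mem ht ht) ?_
  rw [hτ.smul_comm' ht, hτb] at hτtb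
  rw [mul_smul, ← hτtb, smul_inv_smul]

/-- A block through `p` fixed by `τ`. -/
lemma exists_fixed_block (hB : IsS2 (univ : Finset V) k r B) (hT : RegAt B r T p)
    (hτ : Inverts B T τ) (hr : 1 < r) (hodd : r % 2 = 1) : ∃ b ∈ B, p ∈ b ∧ τ • b = b := by
  have hmaps : ∀ b ∈ B.filter (fun b => p ∈ b), τ • b ∈ B.filter (fun b => p ∈ b) := by
    intro b hb
    rw [Finset.mem_filter] at hb ⊢
    refine ⟨hτ.aut b hb.1, ?_⟩
    have := (smul_mem_iff τ b p).mpr hb.2
    rwa [hτ.fix_p hB hT hr] at this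
  obtain ⟨b, hb, hfix⟩ := exists_fixed_of_odd (B.filter (fun b => p ∈ b)) (fun b => τ • b) hmaps
    (fun b _ => hτ.smul_smul_self b) (by rw [hB.point_degree p (Finset.mem_univ p)]; exact hodd)
  rw [Finset.mem_filter] at hb
  exact ⟨b, hb.1, hb.2, hfix⟩

end Inverts

/-- **Structure theorem, first part.** The blocks fixed by `τ` form a parallel class, each orbit of
`T` on the blocks contains exactly one of them, and the fixed points of `τ` lie on the block of the
class through `p`. -/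
theorem parallel_class (hk : 2 ≤ k) (hB : IsS2 (univ : Finset V) k r B) (hT : RegAt B r T p)
    {τ : Equiv.Perm V} (hτ : Inverts B T τ) (hr : 1 < r) (hodd : r % 2 = 1)
    (hcop : Nat.Coprime r k) :
    ∃ b₀ ∈ B, p ∈ b₀ ∧ τ • b₀ = b₀ ∧ (∀ x, τ x = x → x ∈ b₀) ∧
      (∀ x, ∃ c ∈ B, τ • c = c ∧ x ∈ c) ∧
      (∀ c ∈ B, ∀ d ∈ B, τ • c = c → τ • d = d → ∀ x, x ∈ c → x ∈ d → c = d) ∧
      (∀ b ∈ B, ∃ t ∈ T, ∃ c ∈ B, τ • c = c ∧ b = t • c) := by
  classical
  obtain ⟨b₀, hb₀, hpb₀, hτb₀⟩ := hτ.exists_fixed_block hB hT hr hodd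
  have hτp := hτ.fix_p hB hT hr
  have huniq : ∀ b ∈ B, p ∈ b → τ • b = b → b = b₀ := by
    intro b hb hpb hfix
    obtain ⟨t, ht, htb⟩ := hT.trans b₀ hb₀ hpb₀ b hb hpb
    have h1 : t = 1 := by
      refine hτ.unique_fixed hB hT hodd hcop hb₀ hτb₀ ht ?_
      rw [htb]; exact hfix
    rw [← htb, h1, one_smul]
  have hfixb₀ : ∀ x, τ x = x → x ∈ b₀ := by
    intro x hx
    by_cases hxp : x = p
    · rw [hxp]; exact hpb₀
    obtain ⟨b, hb, hpb, hxb⟩ :=
      hB.exists_block (Finset.mem_univ p) (Finset.mem_univ x) (fun h => hxp h.symm)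
    have hfix : τ • b = b := by
      refine hB.unique_block (fun h => hxp h.symm) (hτ.aut b hb) ?_ ?_ hb hpb hxb
      · have := (smul_mem_iff τ b p).mpr hpb
        rwa [hτp] at this
      · have := (smul_mem_iff τ b x).mpr hxb
        rwa [hx] at this
    rw [← huniq b hb hpb hfix]; exact hxb
  -- the fixed blocks missing `p`
  set F := B.filter (fun c => p ∉ c ∧ τ • c = c) with hF
  have hFmem : ∀ c, c ∈ F ↔ c ∈ B ∧ p ∉ c ∧ τ • c = c := by
    intro c; rw [hF, Finset.mem_filter]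
  have hline : ∀ x, x ∉ b₀ → ∃ c ∈ F, x ∈ c := by
    intro x hx
    have hxτ : x ≠ τ x := fun h => hx (hfixb₀ x h.symm)
    obtain ⟨c, hc, hxc, hτxc⟩ := hB.exists_block (Finset.mem_univ x) (Finset.mem_univ (τ x)) hxτ
    have hfix : τ • c = c := by
      refine hB.unique_block hxτ (hτ.aut c hc) ?_ ((smul_mem_iff τ c x).mpr hxc) hc hxc hτxc
      have := (smul_mem_iff τ c (τ x)).mpr hτxc
      rwa [hτ.invol] at this
    refine ⟨c, ?_, hxc⟩
    rw [hFmem]
    exact ⟨hc, fun hpc => hx (by rw [← huniq c hc hpc hfix]; exact hxc), hfix⟩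
  have hdisj0 : ∀ c ∈ B, ∀ d ∈ B, τ • c = c → τ • d = d → ∀ x, x ∉ b₀ → x ∈ c → x ∈ d → c = d := by
    intro c hc d hd hfc hfd x hx hxc hxd
    have hxτ : x ≠ τ x := fun h => hx (hfixb₀ x h.symm)
    refine hB.unique_block hxτ hc hxc ?_ hd hxd ?_
    · have := (smul_mem_iff τ c x).mpr hxc
      rwa [hfc] at this
    · have := (smul_mem_iff τ d x).mpr hxd
      rwa [hfd] at this
  have hP := hB.card_points ⟨p, Finset.mem_univ p⟩ (by omega)
  have hBk := hB.card_blocks
  rw [hP] at hBk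
  have hsplit := Finset.card_filter_add_card_filter_not (s := B) (fun b => p ∈ b)
  rw [hB.point_degree p (Finset.mem_univ p)] at hsplit
  set M := B.filter (fun b => p ∉ b) with hM
  have hMk : M.card * k = r * ((r - 1) * (k - 1)) := by
    obtain ⟨a, rfl⟩ : ∃ a, k = a + 1 := ⟨k - 1, by omega⟩
    obtain ⟨s, rfl⟩ : ∃ s, r = s + 1 := ⟨r - 1, by omega⟩
    simp only [Nat.add_sub_cancel] at hBk ⊢
    have h1 : (s + 1 + M.card) * (a + 1) = ((s + 1) * a + 1) * (s + 1) := by rw [hsplit]; exact hBk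
    have h2 : (s + 1 + M.card) * (a + 1) = (s + 1) * (a + 1) + M.card * (a + 1) := by ring
    have h3 : ((s + 1) * a + 1) * (s + 1) = (s + 1) * (a + 1) + (s + 1) * (s * a) := by ring
    omega
  -- the map (t, c) ↦ t • c
  haveI : Fintype T := Fintype.ofFinite T
  have hTcard : (univ : Finset T).card = r := by
    rw [Finset.card_univ, ← Nat.card_eq_fintype_card, hT.card]
  set g : T × Finset V → Finset V := fun q => (q.1 : Equiv.Perm V) • q.2 with hg
  have hginj : Set.InjOn g (((univ : Finset T) ×ˢ F : Finset (T × Finset V)) : Set _) := by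
    rintro ⟨t, c⟩ h1 ⟨s, d⟩ h2 h3
    rw [Finset.mem_coe, Finset.mem_product] at h1 h2
    have hc := (hFmem c).mp h1.2
    have hd := (hFmem d).mp h2.2
    have h4 : (t : Equiv.Perm V) • c = (s : Equiv.Perm V) • d := h3
    have h5 : (s : Equiv.Perm V)⁻¹ * t ∈ T := T.mul_mem (T.inv_mem s.2) t.2
    have h6 : ((s : Equiv.Perm V)⁻¹ * t) • c = d := by
      rw [mul_smul, h4, inv_smul_smul]
    have h7 : (s : Equiv.Perm V)⁻¹ * t = 1 := by
      refine hτ.unique_fixed hB hT hodd hcop hc.1 hc.2.2 h5 ?_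
      rw [h6]; exact hd.2.2
    have h8 : (t : Equiv.Perm V) = s := (inv_mul_eq_one.mp h7).symm
    rw [h7, one_smul] at h6
    exact Prod.ext (Subtype.ext h8) h6
  have hgsub : ((univ : Finset T) ×ˢ F).image g ⊆ M := by
    intro b hb
    obtain ⟨⟨t, c⟩, h1, rfl⟩ := Finset.mem_image.mp hb
    rw [Finset.mem_product] at h1
    have hc := (hFmem c).mp h1.2
    rw [hM, Finset.mem_filter]
    exact ⟨hT.aut t t.2 c hc.1, fun h => hc.2.1 ((hT.p_mem_iff t.2 c).mp h)⟩
  have hgcard : (((univ : Finset T) ×ˢ F).image g).card = r * F.card := by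
    rw [Finset.card_image_of_injOn hginj, Finset.card_product, hTcard]
  have hle1 : r * F.card ≤ M.card := by
    rw [← hgcard]; exact Finset.card_le_card hgsub
  have hle2 : F.card * k ≤ (r - 1) * (k - 1) := by
    have h1 : r * (F.card * k) ≤ r * ((r - 1) * (k - 1)) := by
      rw [← hMk, ← mul_assoc]; exact Nat.mul_le_mul_right _ hle1
    exact Nat.le_of_mul_le_mul_left h1 (by omega)
  -- counting the points off `b₀`
  have hoff : (univ \ b₀).card = (r - 1) * (k - 1) := by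
    rw [Finset.card_sdiff_of_subset (Finset.subset_univ b₀), hP, hB.block_size b₀ hb₀]
    obtain ⟨a, rfl⟩ : ∃ a, k = a + 1 := ⟨k - 1, by omega⟩
    obtain ⟨s, rfl⟩ : ∃ s, r = s + 1 := ⟨r - 1, by omega⟩
    simp only [Nat.add_sub_cancel]
    have : (s + 1) * a + 1 = s * a + (a + 1) := by ring
    omega
  have hcov : univ \ b₀ = F.biUnion (fun c => c \ b₀) := by
    ext x
    rw [Finset.mem_sdiff, Finset.mem_biUnion]
    constructor
    · rintro ⟨_, hx⟩
      obtain ⟨c, hc, hxc⟩ := hline x hx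
      exact ⟨c, hc, by rw [Finset.mem_sdiff]; exact ⟨hxc, hx⟩⟩
    · rintro ⟨c, _, hxc⟩
      rw [Finset.mem_sdiff] at hxc
      exact ⟨Finset.mem_univ x, hxc.2⟩
  have hpd : ∀ c ∈ F, ∀ d ∈ F, c ≠ d → Disjoint (c \ b₀) (d \ b₀) := by
    intro c hc d hd hcd
    rw [Finset.disjoint_left]
    intro x hx hx'
    rw [Finset.mem_sdiff] at hx hx'
    rw [hFmem] at hc hd
    exact hcd (hdisj0 c hc.1 d hd.1 hc.2.2 hd.2.2 x hx.2 hx.1 hx'.1)
  have hsum : ∑ c ∈ F, (c \ b₀).card = (r - 1) * (k - 1) := by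
    rw [← hoff, hcov, Finset.card_biUnion hpd]
  have hsum2 : ∑ c ∈ F, (c \ b₀).card ≤ ∑ c ∈ F, c.card :=
    Finset.sum_le_sum (fun c _ => Finset.card_le_card Finset.sdiff_subset)
  have hsum3 : ∑ c ∈ F, c.card = F.card * k :=
    Finset.sum_const_nat (fun c hc => hB.block_size c ((hFmem c).mp hc).1)
  have heq : ∑ c ∈ F, (c \ b₀).card = ∑ c ∈ F, c.card := by omega
  have heach : ∀ c ∈ F, (c \ b₀).card = c.card :=
    (Finset.sum_eq_sum_iff_of_le
      (fun c _ => Finset.card_le_card (Finset.sdiff_subset (s := c) (t := b₀)))).mp heq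
  have hdisj : ∀ c ∈ F, ∀ x ∈ c, x ∉ b₀ := by
    intro c hc x hx hxb
    have h1 : c \ b₀ = c := Finset.eq_of_subset_of_card_le Finset.sdiff_subset (heach c hc).ge
    have h2 : x ∈ c \ b₀ := by rw [h1]; exact hx
    exact (Finset.mem_sdiff.mp h2).2 hxb
  have hMeq : r * F.card = M.card := by
    have h1 : F.card * k = (r - 1) * (k - 1) := by omega
    have h2 : r * F.card * k = M.card * k := by rw [hMk, ← h1, mul_assoc]
    exact Nat.eq_of_mul_eq_mul_right (by omega) h2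
  have himgM : ((univ : Finset T) ×ˢ F).image g = M :=
    Finset.eq_of_subset_of_card_le hgsub (by rw [hgcard, hMeq])
  refine ⟨b₀, hb₀, hpb₀, hτb₀, hfixb₀, ?_, ?_, ?_⟩
  · intro x
    by_cases hx : x ∈ b₀
    · exact ⟨b₀, hb₀, hτb₀, hx⟩
    · obtain ⟨c, hc, hxc⟩ := hline x hx
      rw [hFmem] at hc
      exact ⟨c, hc.1, hc.2.2, hxc⟩
  · intro c hc d hd hfc hfd x hxc hxd
    by_cases hx : x ∈ b₀
    · have h1 : ∀ c ∈ B, τ • c = c → x ∈ c → c = b₀ := by
        intro c hc hfc hxc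
        by_cases hpc : p ∈ c
        · exact huniq c hc hpc hfc
        · exact absurd hx (hdisj c ((hFmem c).mpr ⟨hc, hpc, hfc⟩) x hxc)
      rw [h1 c hc hfc hxc, h1 d hd hfd hxd]
    · exact hdisj0 c hc d hd hfc hfd x hx hxc hxd
  · intro b hb
    by_cases hpb : p ∈ b
    · obtain ⟨t, ht, htb⟩ := hT.trans b₀ hb₀ hpb₀ b hb hpb
      exact ⟨t, ht, b₀, hb₀, hτb₀, htb.symm⟩
    · have h1 : b ∈ M := by rw [hM, Finset.mem_filter]; exact ⟨hb, hpb⟩
      rw [← himgM] at h1
      obtain ⟨⟨t, c⟩, h2, h3⟩ := Finset.mem_image.mp h1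
      rw [Finset.mem_product] at h2
      have hc := (hFmem c).mp h2.2
      exact ⟨t, t.2, c, hc.1, hc.2.2, h3.symm⟩

end Run7.h570.S2
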