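import Mathlib
import Pool.Agent.Run7.h570.S2.Dihedral

/-!
A group of automorphisms regular on the blocks through a point and inverted by an involution:
the orbits of points.
-/

namespace Run7.h570.S2

open Finset Pointwise

variable {V : Type} [Fintype V] [DecidableEq V] {k r : ℕ} {B : Finset (Finset V)}
  {T : Subgroup (Equiv.Perm V)} {p : V}

/-- The indicator function of the `T`-orbit of `x`. -/
noncomputable def ind (T : Subgroup (Equiv.Perm V)) (x y : V) : ℤ :=
  @ite ℤ (∃ t ∈ T, t x = y) (Classical.propDecidable _) 1 0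

omit [Fintype V] [DecidableEq V] in
lemma ind_pos {x y : V} (h : ∃ t ∈ T, t x = y) : ind T x y = 1 := by
  unfold ind; rw [if_pos h]

omit [Fintype V] [DecidableEq V] in
lemma ind_neg {x y : V} (h : ¬ ∃ t ∈ T, t x = y) : ind T x y = 0 := by
  unfold ind; rw [if_neg h]

omit [Fintype V] [DecidableEq V] in
lemma ind_congr {x y z w : V} (h : (∃ t ∈ T, t x = y) ↔ (∃ t ∈ T, t z = w)) :
    ind T x y = ind T z w := by
  by_cases h1 : ∃ t ∈ T, t x = y
  · rw [ind_pos h1, ind_pos (h.mp h1)]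
  · rw [ind_neg h1, ind_neg (fun h2 => h1 (h.mpr h2))]

omit [Fintype V] [DecidableEq V] in
lemma ind_smul {t : Equiv.Perm V} (ht : t ∈ T) (x y : V) : ind T x (t y) = ind T x y := by
  apply ind_congr
  constructor
  · rintro ⟨s, hs, h⟩
    refine ⟨t⁻¹ * s, T.mul_mem (T.inv_mem ht) hs, ?_⟩
    rw [Equiv.Perm.mul_apply, h]; simp
  · rintro ⟨s, hs, h⟩
    refine ⟨t * s, T.mul_mem ht hs, ?_⟩
    rw [Equiv.Perm.mul_apply, h]

omit [Fintype V] [DecidableEq V] in
lemma ind_sq (x y : V) : ind T x y ^ 2 = ind T x y := by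
  by_cases h1 : ∃ t ∈ T, t x = y
  · rw [ind_pos h1]; norm_num
  · rw [ind_neg h1]; norm_num

omit [Fintype V] [DecidableEq V] in
lemma ind_tau {τ : Equiv.Perm V} (hinvol : ∀ x, τ (τ x) = x)
    (hinv : ∀ t ∈ T, ∀ x, τ (t x) = t⁻¹ (τ x)) (x y : V) : ind T x (τ y) = ind T (τ x) y := by
  apply ind_congr
  constructor
  · rintro ⟨s, hs, h⟩
    refine ⟨s⁻¹, T.inv_mem hs, ?_⟩
    rw [← hinv s hs, h, hinvol]
  · rintro ⟨s, hs, h⟩
    refine ⟨s⁻¹, T.inv_mem hs, ?_⟩
    have := hinv s⁻¹ (T.inv_mem hs) x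
    rw [inv_inv, ← h] at *
    rw [← this, hinvol]

omit [Fintype V] [DecidableEq V] in
lemma sum_ind (b : Finset V) (x : V) [DecidablePred (fun y => ∃ t ∈ T, t x = y)] :
    ∑ y ∈ b, ind T x y = ((b.filter (fun y => ∃ t ∈ T, t x = y)).card : ℤ) := by
  rw [Finset.card_filter]
  push_cast
  refine Finset.sum_congr rfl (fun y _ => ?_)
  by_cases h1 : ∃ t ∈ T, t x = y
  · rw [ind_pos h1, if_pos h1]
  · rw [ind_neg h1, if_neg h1]

/-- The sum of the indicator function over all points. -/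
lemma sum_ind_univ (hB : IsS2 (univ : Finset V) k r B) (hT : RegAt B r T p) {x : V}
    (hx : x ≠ p) : ∑ y, ind T x y = r := by
  classical
  rw [sum_ind]
  haveI : Fintype T := Fintype.ofFinite T
  have h : (univ.filter (fun y => ∃ t ∈ T, t x = y)) =
      (univ : Finset T).image (fun t : T => (t : Equiv.Perm V) x) := by
    ext y
    rw [Finset.mem_filter, Finset.mem_image]
    constructor
    · rintro ⟨_, t, ht, h⟩; exact ⟨⟨t, ht⟩, Finset.mem_univ _, h⟩
    · rintro ⟨t, _, h⟩; exact ⟨Finset.mem_univ _, t, t.2, h⟩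
  rw [h, Finset.card_image_of_injective, Finset.card_univ, ← Nat.card_eq_fintype_card, hT.card]
  intro t s hts
  have h1 : (s : Equiv.Perm V)⁻¹ * t = 1 := by
    refine hT.free_points hB hx (T.mul_mem (T.inv_mem s.2) t.2) ?_
    rw [Equiv.Perm.mul_apply]
    have : (t : Equiv.Perm V) x = (s : Equiv.Perm V) x := hts
    rw [this]; simp
  exact Subtype.ext (inv_mul_eq_one.mp h1).symm

/-- A block through `p` has exactly one point on each orbit. -/
lemma sum_ind_through (hB : IsS2 (univ : Finset V) k r B) (hT : RegAt B r T p) {x : V}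
    (hx : x ≠ p) {b : Finset V} (hb : b ∈ B) (hpb : p ∈ b) : ∑ y ∈ b, ind T x y = 1 := by
  classical
  rw [sum_ind]
  obtain ⟨b₁, hb₁, hpb₁, hxb₁⟩ :=
    hB.exists_block (Finset.mem_univ p) (Finset.mem_univ x) hx.symm
  obtain ⟨s, hs, hsb⟩ := hT.trans b₁ hb₁ hpb₁ b hb hpb
  have hsx : s x ∈ b := by rw [← hsb]; exact (smul_mem_iff s b₁ x).mpr hxb₁
  have : b.filter (fun y => ∃ t ∈ T, t x = y) = {s x} := by
    ext y
    rw [Finset.mem_filter, Finset.mem_singleton]
    constructor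
    · rintro ⟨hy, t, ht, rfl⟩
      have htx : t x ≠ p := fun h => hx (t.injective (by rw [h, hT.fix t ht]))
      have h1 : t • b₁ = b := hB.unique_block htx.symm (hT.aut t ht b₁ hb₁) (hT.p_mem ht hpb₁)
        ((smul_mem_iff t b₁ x).mpr hxb₁) hb hpb hy
      have h2 : s⁻¹ * t = 1 := by
        refine hT.free_through hB hb₁ hpb₁ (T.mul_mem (T.inv_mem hs) ht) ?_
        rw [mul_smul, h1, ← hsb, inv_smul_smul]
      rw [(inv_mul_eq_one.mp h2)]
    · rintro rfl
      exact ⟨hsx, s, hs, rfl⟩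
  rw [this]; simp

/-- Blocks and orbits: the second moments. -/
lemma sum_ind_mul (hB : IsS2 (univ : Finset V) k r B) (hT : RegAt B r T p) {x y : V}
    (hx : x ≠ p) (hy : y ≠ p) (hxy : ¬ ∃ t ∈ T, t x = y) :
    ∑ b ∈ B.filter (fun b => p ∉ b), (∑ z ∈ b, ind T x z) * (∑ z ∈ b, ind T y z)
      = (r : ℤ) * (r - 1) := by
  classical
  have h1 := hB.sum_sq (fun z => ind T x z + ind T y z)
  have h2 := hB.sum_sq (fun z => ind T x z)
  have h3 := hB.sum_sq (fun z => ind T y z)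
  have hprod : ∀ z, ind T x z * ind T y z = 0 := by
    intro z
    by_cases h4 : ∃ t ∈ T, t x = z
    · by_cases h5 : ∃ t ∈ T, t y = z
      · exfalso
        obtain ⟨t, ht, htx⟩ := h4
        obtain ⟨s, hs, hsy⟩ := h5
        apply hxy
        refine ⟨s⁻¹ * t, T.mul_mem (T.inv_mem hs) ht, ?_⟩
        rw [Equiv.Perm.mul_apply, htx, ← hsy]; simp
      · rw [ind_neg h5, mul_zero]
    · rw [ind_neg h4, zero_mul]
  have h4 : ∀ z, (ind T x z + ind T y z) ^ 2 = ind T x z ^ 2 + ind T y z ^ 2 := by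
    intro z
    have := hprod z
    linear_combination 2 * this
  have h5 : ∀ b ∈ B, (∑ z ∈ b, (ind T x z + ind T y z)) ^ 2 =
      (∑ z ∈ b, ind T x z) ^ 2 + (∑ z ∈ b, ind T y z) ^ 2 +
        2 * ((∑ z ∈ b, ind T x z) * (∑ z ∈ b, ind T y z)) := by
    intro b _
    rw [Finset.sum_add_distrib]; ring
  rw [Finset.sum_congr rfl h5, Finset.sum_add_distrib, Finset.sum_add_distrib, h2, h3,
    Finset.sum_congr rfl (fun z _ => h4 z), Finset.sum_add_distrib, Finset.sum_add_distrib,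
    ← Finset.mul_sum] at h1
  have hx1 := sum_ind_univ hB hT hx
  have hy1 := sum_ind_univ hB hT hy
  rw [hx1, hy1] at h1
  have h6 : ∑ b ∈ B, (∑ z ∈ b, ind T x z) * (∑ z ∈ b, ind T y z) = (r : ℤ) ^ 2 := by
    linarith
  have h7 := Finset.sum_filter_add_sum_filter_not B (fun b => p ∈ b)
    (fun b => (∑ z ∈ b, ind T x z) * (∑ z ∈ b, ind T y z))
  have h8 : ∑ b ∈ B.filter (fun b => p ∈ b), (∑ z ∈ b, ind T x z) * (∑ z ∈ b, ind T y z) = r := by
    rw [Finset.sum_congr rfl (g := fun _ => (1 : ℤ))]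
    · rw [Finset.sum_const, hB.point_degree p (Finset.mem_univ p)]; simp
    · intro b hb
      rw [Finset.mem_filter] at hb
      rw [sum_ind_through hB hT hx hb.1 hb.2, sum_ind_through hB hT hy hb.1 hb.2, one_mul]
  rw [h8, h6] at h7
  linarith

/-- Blocks and one orbit. -/
lemma sum_ind_sq (hB : IsS2 (univ : Finset V) k r B) (hT : RegAt B r T p) {x : V}
    (hx : x ≠ p) :
    ∑ b ∈ B.filter (fun b => p ∉ b), (∑ z ∈ b, ind T x z) ^ 2 = 2 * ((r : ℤ) * (r - 1)) ∧
    ∑ b ∈ B.filter (fun b => p ∉ b), (∑ z ∈ b, ind T x z) = (r : ℤ) * (r - 1) := by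
  classical
  have h2 := hB.sum_sq (fun z => ind T x z)
  simp only [ind_sq] at h2
  have hx1 := sum_ind_univ hB hT hx
  rw [hx1] at h2
  have h7 := Finset.sum_filter_add_sum_filter_not B (fun b => p ∈ b)
    (fun b => (∑ z ∈ b, ind T x z) ^ 2)
  have h8 : ∑ b ∈ B.filter (fun b => p ∈ b), (∑ z ∈ b, ind T x z) ^ 2 = r := by
    rw [Finset.sum_congr rfl (g := fun _ => (1 : ℤ))]
    · rw [Finset.sum_const, hB.point_degree p (Finset.mem_univ p)]; simp
    · intro b hb
      rw [Finset.mem_filter] at hb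
      rw [sum_ind_through hB hT hx hb.1 hb.2, one_pow]
  have h9 := Finset.sum_filter_add_sum_filter_not B (fun b => p ∈ b)
    (fun b => (∑ z ∈ b, ind T x z))
  have h10 : ∑ b ∈ B.filter (fun b => p ∈ b), (∑ z ∈ b, ind T x z) = r := by
    rw [Finset.sum_congr rfl (g := fun _ => (1 : ℤ))]
    · rw [Finset.sum_const, hB.point_degree p (Finset.mem_univ p)]; simp
    · intro b hb
      rw [Finset.mem_filter] at hb
      rw [sum_ind_through hB hT hx hb.1 hb.2]
  have h11 : ∑ b ∈ B, (∑ z ∈ b, ind T x z) = (r : ℤ) * r := by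
    have h12 : ∀ b ∈ B, ∑ z ∈ b, ind T x z = ∑ z, (if z ∈ b then ind T x z else 0) := by
      intro b _
      rw [← Finset.sum_filter]; congr 1; ext z; simp
    rw [Finset.sum_congr rfl h12, Finset.sum_comm]
    have h13 : ∀ z ∈ (univ : Finset V), ∑ b ∈ B, (if z ∈ b then ind T x z else 0)
        = r * ind T x z := by
      intro z hz
      rw [← Finset.sum_filter, Finset.sum_const, hB.point_degree z hz]; simp
    rw [Finset.sum_congr rfl h13, ← Finset.mul_sum, hx1]
  rw [h8] at h7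
  rw [h10, h11] at h9
  refine ⟨?_, ?_⟩
  · linarith
  · linarith

end Run7.h570.S2
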