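import Mathlib
import Pool.Agent.Run7.h570.S2.Dihedral2

/-!
A group of automorphisms regular on the blocks through a point and inverted by an involution:
the main theorem.
-/

namespace Run7.h570.S2

open Finset Pointwise

variable {V : Type} [Fintype V] [DecidableEq V] {k r : ℕ} {B : Finset (Finset V)}
  {T : Subgroup (Equiv.Perm V)} {p : V}

/-- **Main theorem on dihedral symmetry.** -/
theorem dihedral_main (hk : 3 ≤ k) (hB : IsS2 (univ : Finset V) k r B) (hT : RegAt B r T p)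
    {τ : Equiv.Perm V} (hτ : Inverts B T τ) (hr : 1 < r) (hodd : r % 2 = 1)
    (hcop : Nat.Coprime r k) :
    k % 2 = 0 ∧ r % 4 = 1 ∧ univ.filter (fun x => τ x = x) ∈ B ∧
      (∀ x, x ≠ p → ∀ b ∈ B, p ∉ b → (∑ y ∈ b, ind T x y = 0 ∨ ∑ y ∈ b, ind T x y = 2)) ∧
      (∃ col : Finset V → Fin r, ∀ i x, ∃! b, b ∈ B ∧ x ∈ b ∧ col b = i) := by
  classical
  obtain ⟨b₀, hb₀, hpb₀, hτb₀, hfixb₀, hcov, hdisj, hall⟩ :=
    parallel_class (by omega) hB hT hτ hr hodd hcop
  have hτp := hτ.fix_p hB hT hr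
  -- points of `b₀` in one orbit
  have horb : ∀ x ∈ b₀, ∀ y ∈ b₀, x ≠ p → ∀ t ∈ T, t x = y → x = y := by
    intro x hx y hy hxp t ht h
    have hyp : p ≠ y := fun h1 => hxp (t.injective (by rw [h, hT.fix t ht, h1]))
    have h1 : t • b₀ = b₀ := hB.unique_block hyp (hT.aut t ht b₀ hb₀) (hT.p_mem ht hpb₀)
      (by rw [← h]; exact (smul_mem_iff t b₀ x).mpr hx) hb₀ hpb₀ hy
    have h2 := hT.free_through hB hb₀ hpb₀ ht h1
    rw [← h, h2]; rfl
  -- all points of `b₀` are fixed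
  have hfix : ∀ x ∈ b₀, τ x = x := by
    intro x hx
    by_contra hne
    have hxp : x ≠ p := fun h => hne (by rw [h]; exact hτp)
    have hτx : τ x ∈ b₀ := by
      have := (smul_mem_iff τ b₀ x).mpr hx
      rwa [hτb₀] at this
    have hτxp : τ x ≠ p := fun h => hxp (by rw [← hτ.invol x, h, hτp])
    have hsum0 : ∀ b ∈ B, ∑ y ∈ b, (ind T x y - ind T (τ x) y) = 0 := by
      intro b hb
      obtain ⟨t, ht, c, hc, hfc, rfl⟩ := hall b hb
      rw [sum_smul]
      simp only [ind_smul ht]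
      have h1 : ∑ y ∈ τ • c, (ind T x y - ind T (τ x) y) = ∑ y ∈ c, (ind T x y - ind T (τ x) y) := by
        rw [hfc]
      rw [sum_smul] at h1
      have h2 : ∀ y ∈ c, ind T x (τ y) - ind T (τ x) (τ y) = - (ind T x y - ind T (τ x) y) := by
        intro y _
        rw [ind_tau hτ.invol hτ.inv, ind_tau hτ.invol hτ.inv, hτ.invol]; ring
      rw [Finset.sum_congr rfl h2, Finset.sum_neg_distrib] at h1
      omega
    have h1 := hB.sum_sq (fun y => ind T x y - ind T (τ x) y)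
    rw [Finset.sum_congr rfl (fun b hb => by rw [hsum0 b hb])] at h1
    have h2 : (0 : ℤ) ≤ ∑ y, (ind T x y - ind T (τ x) y) ^ 2 :=
      Finset.sum_nonneg (fun y _ => sq_nonneg _)
    have h3 : ∑ y, (ind T x y - ind T (τ x) y) ^ 2 = 0 := by
      have h4 : (0 : ℤ) < (r : ℤ) - 1 := by omega
      have h5 : (0 : ℤ) = ((r : ℤ) - 1) * ∑ y, (ind T x y - ind T (τ x) y) ^ 2
          + (∑ y, (ind T x y - ind T (τ x) y)) ^ 2 := by
        rw [← h1]; simp
      nlinarith [sq_nonneg (∑ y, (ind T x y - ind T (τ x) y))]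
    have h4 := (Finset.sum_eq_zero_iff_of_nonneg (fun y _ => sq_nonneg _)).mp h3 x
      (Finset.mem_univ x)
    have h5 : ind T x x = 1 := ind_pos ⟨1, T.one_mem, rfl⟩
    have h6 : ind T (τ x) x = 0 := by
      apply ind_neg
      rintro ⟨t, ht, h⟩
      exact hne (horb (τ x) hτx x hx hτxp t ht h)
    rw [h5, h6] at h4
    norm_num at h4
  have hfixeq : univ.filter (fun x => τ x = x) = b₀ := by
    ext x
    rw [Finset.mem_filter]
    exact ⟨fun h => hfixb₀ x h.2, fun h => ⟨Finset.mem_univ x, hfix x h⟩⟩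
  -- τ-fixed blocks missing `p` have no fixed points
  have hnofix : ∀ c ∈ B, τ • c = c → p ∉ c → ∀ x ∈ c, τ x ≠ x := by
    intro c hc hfc hpc x hx h
    have h1 := hdisj c hc b₀ hb₀ hfc hτb₀ x hx (hfixb₀ x h)
    exact hpc (by rw [h1]; exact hpb₀)
  have hmaps : ∀ c : Finset V, τ • c = c → ∀ x ∈ c, τ x ∈ c := by
    intro c hfc x hx
    have := (smul_mem_iff τ c x).mpr hx
    rwa [hfc] at this
  -- `k` is even
  have hkeven : k % 2 = 0 := by
    have hP := hB.card_points ⟨p, Finset.mem_univ p⟩ (by omega)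
    have h1 : b₀.card < (univ : Finset V).card := by
      rw [hP, hB.block_size b₀ hb₀]
      have : 2 * (k - 1) ≤ r * (k - 1) := Nat.mul_le_mul_right _ hr
      omega
    obtain ⟨x, _, hx⟩ := Finset.exists_mem_notMem_of_card_lt_card h1
    obtain ⟨c, hc, hfc, hxc⟩ := hcov x
    have hpc : p ∉ c := by
      intro hpc
      have := hdisj c hc b₀ hb₀ hfc hτb₀ p hpc hpb₀
      exact hx (by rw [← this]; exact hxc)
    have := even_of_free c τ (hmaps c hfc) (fun x _ => hτ.invol x) (hnofix c hc hfc hpc)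
    rwa [hB.block_size c hc] at this
  -- even intersections
  have heven : ∀ x, x ≠ p → ∀ b ∈ B, p ∉ b → (2 : ℤ) ∣ ∑ y ∈ b, ind T x y := by
    intro x hx b hb hpb
    obtain ⟨t, ht, c, hc, hfc, rfl⟩ := hall b hb
    rw [sum_smul]
    simp only [ind_smul ht]
    have hpc : p ∉ c := fun h => hpb (hT.p_mem ht h)
    -- a point of `b₀` in the orbit of `x`
    have h1 := sum_ind_through hB hT hx hb₀ hpb₀
    obtain ⟨z, hz, hz1⟩ : ∃ z ∈ b₀, ind T x z ≠ 0 := by
      by_contra hcon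
      push Not at hcon
      rw [Finset.sum_congr rfl hcon] at h1
      simp at h1
    have h2 : ∃ s ∈ T, s x = z := by
      by_contra h; exact hz1 (ind_neg h)
    obtain ⟨s, hs, hsx⟩ := h2
    have h3 : ∀ y, ind T x y = ind T z y := by
      intro y
      apply ind_congr
      constructor
      · rintro ⟨u, hu, h⟩
        refine ⟨u * s⁻¹, T.mul_mem hu (T.inv_mem hs), ?_⟩
        rw [Equiv.Perm.mul_apply, ← hsx]; simp [h]
      · rintro ⟨u, hu, h⟩
        exact ⟨u * s, T.mul_mem hu hs, by rw [Equiv.Perm.mul_apply, hsx, h]⟩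
    refine even_sum_of_invol c τ (hmaps c hfc) (fun x _ => hτ.invol x) (hnofix c hc hfc hpc) _ ?_
    intro y _
    rw [h3, h3, ind_tau hτ.invol hτ.inv, hfix z hz]
  have hzerotwo : ∀ x, x ≠ p → ∀ b ∈ B, p ∉ b →
      (∑ y ∈ b, ind T x y = 0 ∨ ∑ y ∈ b, ind T x y = 2) := by
    intro x hx
    obtain ⟨h1, h2⟩ := sum_ind_sq hB hT hx
    have h3 : ∑ b ∈ B.filter (fun b => p ∉ b),
        ((∑ z ∈ b, ind T x z) ^ 2 - 2 * (∑ z ∈ b, ind T x z)) = 0 := by
      rw [Finset.sum_sub_distrib, ← Finset.mul_sum, h1, h2]; ring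
    have h4 : ∀ b ∈ B.filter (fun b => p ∉ b),
        0 ≤ (∑ z ∈ b, ind T x z) ^ 2 - 2 * (∑ z ∈ b, ind T x z) := by
      intro b hb
      rw [Finset.mem_filter] at hb
      obtain ⟨m, hm⟩ := heven x hx b hb.1 hb.2
      rw [hm]
      have : 0 ≤ m * (m - 1) := by
        rcases le_or_gt m 0 with h5 | h5
        · nlinarith
        · nlinarith
      nlinarith
    intro b hb hpb
    have h5 := (Finset.sum_eq_zero_iff_of_nonneg h4).mp h3 b
      (by rw [Finset.mem_filter]; exact ⟨hb, hpb⟩)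
    have h6 : (∑ z ∈ b, ind T x z) * ((∑ z ∈ b, ind T x z) - 2) = 0 := by
      rw [← h5]; ring
    rcases mul_eq_zero.mp h6 with h7 | h7
    · left; exact h7
    · right; linarith
  -- `r ≡ 1 (mod 4)`
  have hr4 : r % 4 = 1 := by
    have h1 : 1 < (b₀.erase p).card := by
      rw [Finset.card_erase_of_mem hpb₀, hB.block_size b₀ hb₀]; omega
    obtain ⟨x, hx, y, hy, hxy⟩ := Finset.one_lt_card.mp h1
    rw [Finset.mem_erase] at hx hy
    have h2 : ¬ ∃ t ∈ T, t x = y := by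
      rintro ⟨t, ht, h⟩
      exact hxy (horb x hx.2 y hy.2 hx.1 t ht h)
    have h3 := sum_ind_mul hB hT hx.1 hy.1 h2
    have h4 : (4 : ℤ) ∣ ∑ b ∈ B.filter (fun b => p ∉ b),
        (∑ z ∈ b, ind T x z) * (∑ z ∈ b, ind T y z) := by
      refine Finset.dvd_sum (fun b hb => ?_)
      rw [Finset.mem_filter] at hb
      rcases hzerotwo x hx.1 b hb.1 hb.2 with h5 | h5 <;>
        rcases hzerotwo y hy.1 b hb.1 hb.2 with h6 | h6 <;> rw [h5, h6] <;> norm_num
    rw [h3] at h4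
    obtain ⟨m, hm⟩ : ∃ m, r = 2 * m + 1 := ⟨r / 2, by omega⟩
    rw [hm] at h4
    push_cast at h4
    obtain ⟨c, hc⟩ := h4
    have h5 : (2 * (m : ℤ) + 1) * (2 * m + 1 - 1) = 4 * (m * m) + 2 * m := by ring
    omega
  -- the colouring
  have hcol : ∃ col : Finset V → T, ∀ b ∈ B, ∃ c ∈ B, τ • c = c ∧ b = (col b : Equiv.Perm V) • c := by
    choose! f hf using hall
    refine ⟨fun b => if h : b ∈ B then ⟨f b, (hf b h).1⟩ else 1, fun b hb => ?_⟩
    obtain ⟨_, c, hc⟩ := hf b hb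
    refine ⟨c, hc.1, hc.2.1, ?_⟩
    simp only [dif_pos hb]; exact hc.2.2
  obtain ⟨col, hcol⟩ := hcol
  have hcolu : ∀ c ∈ B, τ • c = c → ∀ t : T, col ((t : Equiv.Perm V) • c) = t := by
    intro c hc hfc t
    obtain ⟨d, hd, hfd, h⟩ := hcol ((t : Equiv.Perm V) • c) (hT.aut t t.2 c hc)
    set s := col ((t : Equiv.Perm V) • c)
    have h1 : ((s : Equiv.Perm V)⁻¹ * t) • c = d := by
      rw [mul_smul, h, inv_smul_smul]
    have h2 : (s : Equiv.Perm V)⁻¹ * t = 1 := by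
      refine hτ.unique_fixed hB hT hodd hcop hc hfc (T.mul_mem (T.inv_mem s.2) t.2) ?_
      rw [h1]; exact hfd
    exact Subtype.ext (inv_mul_eq_one.mp h2)
  refine ⟨hkeven, hr4, by rw [hfixeq]; exact hb₀, hzerotwo, ?_⟩
  let e : T ≃ Fin r := Finite.equivFinOfCardEq hT.card
  refine ⟨fun b => e (col b), fun i x => ?_⟩
  set t := e.symm i with ht
  obtain ⟨c, hc, hfc, hxc⟩ := hcov ((t : Equiv.Perm V)⁻¹ x)
  refine ⟨(t : Equiv.Perm V) • c, ⟨hT.aut t t.2 c hc, ?_, ?_⟩, ?_⟩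
  · have := (smul_mem_iff (t : Equiv.Perm V) c _).mpr hxc
    simpa using this
  · show e (col ((t : Equiv.Perm V) • c)) = i
    rw [hcolu c hc hfc t, ht]; simp
  · rintro b ⟨hb, hxb, hcb⟩
    obtain ⟨d, hd, hfd, h⟩ := hcol b hb
    have h1 : col b = t := by rw [ht, ← hcb]; simp
    rw [h1] at h
    have h2 : (t : Equiv.Perm V)⁻¹ x ∈ d := by
      rw [h] at hxb
      have := (smul_mem_iff (t : Equiv.Perm V) d ((t : Equiv.Perm V)⁻¹ x)).mp (by simpa using hxb)
      exact this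
    rw [h, hdisj c hc d hd hfc hfd _ hxc h2]

end Run7.h570.S2
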