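import Mathlib
import Pool.Agent.Run7.h570.S2.Dihedral3

/-!
A group of automorphisms regular on the blocks through a point and inverted by an involution:
hyperovals and partial Hadamard matrices.
-/

namespace Run7.h570.S2

open Finset Pointwise

variable {V : Type} [Fintype V] [DecidableEq V] {k r : ℕ} {B : Finset (Finset V)}
  {T : Subgroup (Equiv.Perm V)} {p : V}

/-- The fixed blocks missing `p`. -/
def fixedOff (B : Finset (Finset V)) (p : V) (τ : Equiv.Perm V) : Finset (Finset V) :=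
  B.filter (fun c => p ∉ c ∧ τ • c = c)

omit [Fintype V] in
lemma mem_fixedOff {τ : Equiv.Perm V} {c : Finset V} :
    c ∈ fixedOff B p τ ↔ c ∈ B ∧ p ∉ c ∧ τ • c = c := by
  unfold fixedOff; rw [Finset.mem_filter]

/-- Sums over the blocks missing `p` of `T`-invariant functions. -/
lemma sum_off (hk : 2 ≤ k) (hB : IsS2 (univ : Finset V) k r B) (hT : RegAt B r T p)
    {τ : Equiv.Perm V} (hτ : Inverts B T τ) (hr : 1 < r) (hodd : r % 2 = 1)
    (hcop : Nat.Coprime r k) (g : Finset V → ℤ)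
    (hg : ∀ t ∈ T, ∀ c ∈ B, p ∉ c → g (t • c) = g c) :
    ∑ b ∈ B.filter (fun b => p ∉ b), g b = r * ∑ c ∈ fixedOff B p τ, g c := by
  classical
  obtain ⟨b₀, hb₀, hpb₀, hτb₀, hfixb₀, hcov, hdisj, hall⟩ :=
    parallel_class hk hB hT hτ hr hodd hcop
  have : Fintype T := Fintype.ofFinite T
  have hTcard : (univ : Finset T).card = r := by
    rw [Finset.card_univ, ← Nat.card_eq_fintype_card, hT.card]
  have h1 : ∑ b ∈ B.filter (fun b => p ∉ b), g b =
      ∑ x ∈ (univ : Finset T) ×ˢ fixedOff B p τ, g ((x.1 : Equiv.Perm V) • x.2) := by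
    symm
    refine Finset.sum_bij (fun x _ => (x.1 : Equiv.Perm V) • x.2) ?_ ?_ ?_ ?_
    · rintro ⟨t, c⟩ hx
      rw [Finset.mem_product] at hx
      have hc := mem_fixedOff.mp hx.2
      rw [Finset.mem_filter]
      exact ⟨hT.aut t t.2 c hc.1, fun h => hc.2.1 ((hT.p_mem_iff t.2 c).mp h)⟩
    · rintro ⟨t, c⟩ hx ⟨s, d⟩ hy hxy
      rw [Finset.mem_product] at hx hy
      have hc := mem_fixedOff.mp hx.2
      have hd := mem_fixedOff.mp hy.2
      simp only at hxy hc hd
      have h2 : ((s : Equiv.Perm V)⁻¹ * t) • c = d := by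
        rw [mul_smul, hxy, inv_smul_smul]
      have h3 : (s : Equiv.Perm V)⁻¹ * t = 1 := by
        refine hτ.unique_fixed hB hT hodd hcop hc.1 hc.2.2 (T.mul_mem (T.inv_mem s.2) t.2) ?_
        rw [h2]; exact hd.2.2
      have h4 : t = s := Subtype.ext (inv_mul_eq_one.mp h3).symm
      rw [h3, one_smul] at h2
      rw [h4, h2]
    · intro b hb
      rw [Finset.mem_filter] at hb
      obtain ⟨t, ht, c, hc, hfc, rfl⟩ := hall b hb.1
      refine ⟨(⟨t, ht⟩, c), ?_, rfl⟩
      rw [Finset.mem_product]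
      exact ⟨Finset.mem_univ _, mem_fixedOff.mpr ⟨hc, fun h => hb.2 (hT.p_mem ht h), hfc⟩⟩
    · intro x _; rfl
  rw [h1, Finset.sum_product]
  have h2 : ∀ t ∈ (univ : Finset T), ∑ c ∈ fixedOff B p τ, g ((t : Equiv.Perm V) • c) =
      ∑ c ∈ fixedOff B p τ, g c := by
    intro t _
    refine Finset.sum_congr rfl (fun c hc => ?_)
    have hc' := mem_fixedOff.mp hc
    exact hg t t.2 c hc'.1 hc'.2.1
  rw [Finset.sum_congr rfl h2, Finset.sum_const, hTcard, nsmul_eq_mul]

/-- The number of fixed blocks missing `p`. -/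
lemma card_fixedOff (hk : 2 ≤ k) (hB : IsS2 (univ : Finset V) k r B) (hT : RegAt B r T p)
    {τ : Equiv.Perm V} (hτ : Inverts B T τ) (hr : 1 < r) (hodd : r % 2 = 1)
    (hcop : Nat.Coprime r k) : (fixedOff B p τ).card * k = (r - 1) * (k - 1) := by
  have hP := hB.card_points ⟨p, Finset.mem_univ p⟩ (by omega)
  have hBk := hB.card_blocks
  rw [hP] at hBk
  have hsplit := Finset.card_filter_add_card_filter_not (s := B) (fun b => p ∈ b)
  rw [hB.point_degree p (Finset.mem_univ p)] at hsplit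
  set M := B.filter (fun b => p ∉ b) with hM
  have hMk : M.card * k = r * ((r - 1) * (k - 1)) := by
    obtain ⟨a, rfl⟩ : ∃ a, k = a + 1 := ⟨k - 1, by omega⟩
    obtain ⟨s, rfl⟩ : ∃ s, r = s + 1 := ⟨r - 1, by omega⟩
    simp only [Nat.add_sub_cancel] at hBk ⊢
    have h1 : (s + 1 + M.card) * (a + 1) = ((s + 1) * a + 1) * (s + 1) := by rw [hsplit]; exact hBk
    have h2 : (s + 1 + M.card) * (a + 1) = (s + 1) * (a + 1) + M.card * (a + 1) := by ring
    have h3 : ((s + 1) * a + 1) * (s + 1) = (s + 1) * (a + 1) + (s + 1) * (s * a) := by ring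
    omega
  have h := sum_off hk hB hT hτ hr hodd hcop (fun _ => 1) (fun _ _ _ _ _ => rfl)
  simp only [Finset.sum_const, nsmul_eq_mul, mul_one] at h
  rw [← hM] at h
  have h' : M.card = r * (fixedOff B p τ).card := by exact_mod_cast h
  rw [h', mul_assoc] at hMk
  exact Nat.eq_of_mul_eq_mul_left (by omega) hMk

/-- The entries of the matrix. -/
noncomputable def ent (T : Subgroup (Equiv.Perm V)) (x : V) (c : Finset V) : ℤ :=
  1 - ∑ y ∈ c, ind T x y

section
variable (hk : 3 ≤ k) (hB : IsS2 (univ : Finset V) k r B) (hT : RegAt B r T p)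
    {τ : Equiv.Perm V} (hτ : Inverts B T τ) (hr : 1 < r) (hodd : r % 2 = 1)
    (hcop : Nat.Coprime r k)
include hk hB hT hτ hr hodd hcop

lemma sum_one (x : V) (hx : x ≠ p) :
    ∑ c ∈ fixedOff B p τ, ∑ y ∈ c, ind T x y = (r : ℤ) - 1 := by
  have h1 := (sum_ind_sq hB hT hx).2
  rw [sum_off (by omega) hB hT hτ hr hodd hcop (fun c => ∑ y ∈ c, ind T x y)
    (fun t ht c _ _ => by rw [sum_smul]; simp only [ind_smul ht])] at h1
  have h2 : (0 : ℤ) < r := by omega
  exact mul_left_cancel₀ h2.ne' h1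

lemma sum_two (x y : V) (hx : x ≠ p) (hy : y ≠ p) (hxy : ¬ ∃ t ∈ T, t x = y) :
    ∑ c ∈ fixedOff B p τ, (∑ z ∈ c, ind T x z) * (∑ z ∈ c, ind T y z) = (r : ℤ) - 1 := by
  have h1 := sum_ind_mul hB hT hx hy hxy
  rw [sum_off (by omega) hB hT hτ hr hodd hcop
    (fun c => (∑ z ∈ c, ind T x z) * (∑ z ∈ c, ind T y z))
    (fun t ht c _ _ => by rw [sum_smul, sum_smul]; simp only [ind_smul ht])] at h1
  have h2 : (0 : ℤ) < r := by omega
  exact mul_left_cancel₀ h2.ne' h1

lemma ent_inner (x y : V) (hx : x ≠ p) (hy : y ≠ p) (hxy : ¬ ∃ t ∈ T, t x = y) :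
    ∑ c ∈ fixedOff B p τ, ent T x c * ent T y c =
      (fixedOff B p τ).card - ((r : ℤ) - 1) := by
  have h0 : ∀ c ∈ fixedOff B p τ, ent T x c * ent T y c =
      1 - ∑ z ∈ c, ind T x z - ∑ z ∈ c, ind T y z
        + (∑ z ∈ c, ind T x z) * (∑ z ∈ c, ind T y z) := by
    intro c _; unfold ent; ring
  rw [Finset.sum_congr rfl h0, Finset.sum_add_distrib, Finset.sum_sub_distrib,
    Finset.sum_sub_distrib, sum_one hk hB hT hτ hr hodd hcop x hx,
    sum_one hk hB hT hτ hr hodd hcop y hy, sum_two hk hB hT hτ hr hodd hcop x y hx hy hxy,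
    Finset.sum_const, nsmul_eq_mul, mul_one]
  ring

lemma ent_sum (x : V) (hx : x ≠ p) :
    ∑ c ∈ fixedOff B p τ, ent T x c = (fixedOff B p τ).card - ((r : ℤ) - 1) := by
  unfold ent
  rw [Finset.sum_sub_distrib, sum_one hk hB hT hτ hr hodd hcop x hx]
  simp

lemma ent_pm (x : V) (hx : x ≠ p) (c : Finset V) (hc : c ∈ fixedOff B p τ) :
    ent T x c = 1 ∨ ent T x c = -1 := by
  have hc' := mem_fixedOff.mp hc
  have := (dihedral_main hk hB hT hτ hr hodd hcop).2.2.2.1 x hx c hc'.1 hc'.2.1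
  unfold ent
  rcases this with h | h <;> rw [h]
  · left; norm_num
  · right; norm_num

/-- each point other than `p` is in exactly one of the orbits of the points of the fixed block -/
lemma sum_ind_block {b₀ : Finset V} (hb₀ : b₀ ∈ B) (hpb₀ : p ∈ b₀) (z : V) (hz : z ≠ p) :
    ∑ x ∈ b₀.erase p, ind T x z = 1 := by
  classical
  have h1 := sum_ind_through hB hT hz hb₀ hpb₀
  have hp0 : ind T z p = 0 := by
    apply ind_neg
    rintro ⟨t, ht, h⟩
    exact hz (t.injective (by rw [h, hT.fix t ht]))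
  rw [← Finset.sum_erase _ hp0] at h1
  rw [← h1]
  refine Finset.sum_congr rfl (fun x _ => ?_)
  apply ind_congr
  constructor
  · rintro ⟨t, ht, h⟩; exact ⟨t⁻¹, T.inv_mem ht, by rw [← h]; simp⟩
  · rintro ⟨t, ht, h⟩; exact ⟨t⁻¹, T.inv_mem ht, by rw [← h]; simp⟩

lemma ent_col {b₀ : Finset V} (hb₀ : b₀ ∈ B) (hpb₀ : p ∈ b₀) (c : Finset V)
    (hc : c ∈ fixedOff B p τ) : ∑ x ∈ b₀.erase p, ent T x c = -1 := by
  have hc' := mem_fixedOff.mp hc
  unfold ent
  rw [Finset.sum_sub_distrib, Finset.sum_comm,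
    Finset.sum_congr rfl (fun z hz => sum_ind_block hk hB hT hτ hr hodd hcop hb₀ hpb₀ z
      (fun h => hc'.2.1 (h ▸ hz)))]
  rw [Finset.sum_const, Finset.sum_const, Finset.card_erase_of_mem hpb₀, hB.block_size b₀ hb₀,
    hB.block_size c hc'.1]
  simp only [nsmul_eq_mul, mul_one]
  omega

end

/-- **Partial Hadamard matrices.** -/
theorem partial_hadamard (hk : 3 ≤ k) (hB : IsS2 (univ : Finset V) k r B) (hT : RegAt B r T p)
    {τ : Equiv.Perm V} (hτ : Inverts B T τ) (hr : 1 < r) (hodd : r % 2 = 1)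
    (hcop : Nat.Coprime r k) :
    k ∣ r - 1 ∧ ∃ H : Matrix (Fin k) (Fin (r - 1)) ℤ, (∀ i j, H i j = 1 ∨ H i j = -1) ∧
      H * H.transpose = ((r : ℤ) - 1) • (1 : Matrix (Fin k) (Fin k) ℤ) ∧
      (∀ j, (∀ i, H i j = 1) ∨ ∑ i, H i j = 0) ∧
      (Finset.univ.filter (fun j => ∀ i, H i j = 1)).card * k = r - 1 := by
  classical
  obtain ⟨b₀, hb₀, hpb₀, hτb₀, hfixb₀, hcov, hdisj, hall⟩ :=
    parallel_class (by omega) hB hT hτ hr hodd hcop
  have hcardF := card_fixedOff (by omega) hB hT hτ hr hodd hcop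
  have hdvd : k ∣ r - 1 := by
    have h1 : k ∣ (r - 1) * (k - 1) := ⟨(fixedOff B p τ).card, by rw [← hcardF]; ring⟩
    have h2 : Nat.Coprime k (k - 1) := by
      rw [Nat.coprime_self_sub_right (by omega)]; exact Nat.coprime_one_right k
    exact h2.dvd_of_dvd_mul_right h1
  obtain ⟨e, he⟩ := hdvd
  have hF : (fixedOff B p τ).card = e * (k - 1) := by
    rw [he] at hcardF
    have h1 : k * (fixedOff B p τ).card = k * (e * (k - 1)) := by rw [mul_comm, hcardF]; ring
    exact Nat.eq_of_mul_eq_mul_left (by omega) h1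
  have hX : (b₀.erase p).card = k - 1 := by
    rw [Finset.card_erase_of_mem hpb₀, hB.block_size b₀ hb₀]
  -- points of the rows, blocks of the columns
  have hrow : Fintype.card (Option (b₀.erase p)) = k := by
    rw [Fintype.card_option, Fintype.card_coe, hX]; omega
  have hcol : Fintype.card (Fin e ⊕ fixedOff B p τ) = r - 1 := by
    rw [Fintype.card_sum, Fintype.card_fin, Fintype.card_coe, hF, he]
    obtain ⟨a, rfl⟩ : ∃ a, k = a + 1 := ⟨k - 1, by omega⟩
    simp; ring
  let f : Option (b₀.erase p) ≃ Fin k := Fintype.equivFinOfCardEq hrow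
  let g : (Fin e ⊕ fixedOff B p τ) ≃ Fin (r - 1) := Fintype.equivFinOfCardEq hcol
  let E : Option (b₀.erase p) → (Fin e ⊕ fixedOff B p τ) → ℤ := fun x c =>
    match x, c with
    | none, _ => 1
    | some _, Sum.inl _ => 1
    | some x, Sum.inr c => ent T (x : V) (c : Finset V)
  have hxp : ∀ x : b₀.erase p, (x : V) ≠ p := fun x => (Finset.mem_erase.mp x.2).1
  have hEpm : ∀ x c, E x c = 1 ∨ E x c = -1 := by
    rintro (_ | x) (c | c)
    · left; rfl
    · left; rfl
    · left; rfl
    · exact ent_pm hk hB hT hτ hr hodd hcop x (hxp x) c c.2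
  have hcardF' : ((fixedOff B p τ).card : ℤ) - ((r : ℤ) - 1) = - e := by
    have h1 : ((r - 1 : ℕ) : ℤ) = (r : ℤ) - 1 := by omega
    rw [← h1, he, hF]
    obtain ⟨a, rfl⟩ : ∃ a, k = a + 1 := ⟨k - 1, by omega⟩
    rw [Nat.add_sub_cancel]
    push_cast
    ring
  have hsame : ∀ x y : b₀.erase p, x ≠ y → ¬ ∃ t ∈ T, t (x : V) = y := by
    rintro x y hxy ⟨t, ht, h⟩
    have hx := Finset.mem_erase.mp x.2
    have hy := Finset.mem_erase.mp y.2
    have h1 : t • b₀ = b₀ := hB.unique_block hy.1.symm (hT.aut t ht b₀ hb₀) (hT.p_mem ht hpb₀)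
      (by rw [← h]; exact (smul_mem_iff t b₀ x).mpr hx.2) hb₀ hpb₀ hy.2
    have h2 := hT.free_through hB hb₀ hpb₀ ht h1
    apply hxy
    apply Subtype.ext
    rw [← h, h2]; rfl
  have hsumattach : ∀ (F : Finset V → ℤ), ∑ c : fixedOff B p τ, F (c : Finset V) =
      ∑ c ∈ fixedOff B p τ, F c := by
    intro F; exact Finset.sum_coe_sort _ F
  have hEinner : ∀ x y, x ≠ y → ∑ c, E x c * E y c = 0 := by
    rintro (_ | x) (_ | y) hxy
    · exact absurd rfl hxy
    · rw [Fintype.sum_sum_type]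
      show ∑ a : Fin e, (1 : ℤ) * 1 + ∑ c : fixedOff B p τ, 1 * ent T (y : V) (c : Finset V) = 0
      simp only [one_mul]
      rw [hsumattach (fun c => ent T (y : V) c), ent_sum hk hB hT hτ hr hodd hcop y (hxp y),
        hcardF']
      simp
    · rw [Fintype.sum_sum_type]
      show ∑ a : Fin e, (1 : ℤ) * 1 + ∑ c : fixedOff B p τ, ent T (x : V) (c : Finset V) * 1 = 0
      simp only [mul_one]
      rw [hsumattach (fun c => ent T (x : V) c), ent_sum hk hB hT hτ hr hodd hcop x (hxp x),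
        hcardF']
      simp
    · rw [Fintype.sum_sum_type]
      show ∑ a : Fin e, (1 : ℤ) * 1 + ∑ c : fixedOff B p τ,
        ent T (x : V) (c : Finset V) * ent T (y : V) (c : Finset V) = 0
      rw [hsumattach (fun c => ent T (x : V) c * ent T (y : V) c),
        ent_inner hk hB hT hτ hr hodd hcop x y (hxp x) (hxp y)
          (hsame x y (fun h => hxy (by rw [h]))), hcardF']
      simp
  have hEself : ∀ x, ∑ c, E x c * E x c = (r : ℤ) - 1 := by
    intro x
    rw [Finset.sum_congr rfl (g := fun _ => (1 : ℤ))]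
    · rw [Finset.sum_const, Finset.card_univ, hcol]
      simp; omega
    · intro c _
      rcases hEpm x c with h | h <;> rw [h] <;> norm_num
  have hEcol : ∀ c : fixedOff B p τ, ∑ x, E x (Sum.inr c) = 0 := by
    intro c
    rw [Fintype.sum_option]
    show (1 : ℤ) + ∑ x : b₀.erase p, ent T (x : V) (c : Finset V) = 0
    rw [Finset.sum_coe_sort (b₀.erase p) (fun x => ent T x (c : Finset V)),
      ent_col hk hB hT hτ hr hodd hcop hb₀ hpb₀ c c.2]
    norm_num
  refine ⟨⟨e, he⟩, Matrix.of (fun i j => E (f.symm i) (g.symm j)), ?_, ?_, ?_, ?_⟩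
  · intro i j; exact hEpm _ _
  · ext i i'
    rw [Matrix.mul_apply, Matrix.smul_apply]
    have h1 : ∑ j, Matrix.of (fun i j => E (f.symm i) (g.symm j)) i j *
        (Matrix.of (fun i j => E (f.symm i) (g.symm j))).transpose j i' =
        ∑ c, E (f.symm i) c * E (f.symm i') c := by
      rw [← Equiv.sum_comp g.symm (fun c => E (f.symm i) c * E (f.symm i') c)]
      rfl
    rw [h1]
    by_cases h : i = i'
    · subst h; rw [hEself]; simp
    · rw [hEinner _ _ (fun h2 => h (f.symm.injective h2)), Matrix.one_apply_ne h]; simp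
  · intro j
    rcases hj : g.symm j with a | c
    · left
      intro i
      show E (f.symm i) (g.symm j) = 1
      rw [hj]
      rcases f.symm i with _ | x <;> rfl
    · right
      have h1 : ∑ i, Matrix.of (fun i j => E (f.symm i) (g.symm j)) i j =
          ∑ x, E x (Sum.inr c) := by
        rw [← Equiv.sum_comp f.symm (fun x => E x (Sum.inr c))]
        refine Finset.sum_congr rfl (fun i _ => ?_)
        show E (f.symm i) (g.symm j) = _
        rw [hj]
      rw [h1]; exact hEcol c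
  · have h1 : (Finset.univ.filter (fun j => ∀ i, Matrix.of (fun i j =>
        E (f.symm i) (g.symm j)) i j = 1)) = (Finset.univ : Finset (Fin e)).image
        (fun a => g (Sum.inl a)) := by
      ext j
      rw [Finset.mem_filter, Finset.mem_image]
      constructor
      · rintro ⟨_, h⟩
        rcases hj : g.symm j with a | c
        · exact ⟨a, Finset.mem_univ _, by rw [← hj]; simp⟩
        · exfalso
          have h2 : ∀ x, E x (Sum.inr c) = 1 := by
            intro x
            have := h (f x)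
            simp only [Matrix.of_apply, Equiv.symm_apply_apply, hj] at this
            exact this
          have h3 := hEcol c
          rw [Finset.sum_congr rfl (fun x _ => h2 x), Finset.sum_const, Finset.card_univ,
            hrow] at h3
          simp at h3
          omega
      · rintro ⟨a, _, rfl⟩
        refine ⟨Finset.mem_univ _, fun i => ?_⟩
        simp only [Matrix.of_apply, Equiv.symm_apply_apply]
        rcases f.symm i with _ | x <;> rfl
    rw [h1, Finset.card_image_of_injective, Finset.card_univ, Fintype.card_fin, he, mul_comm]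
    intro a b hab
    have := g.injective hab
    exact Sum.inl_injective this

/-- **Hyperovals.** -/
theorem hyperoval (hk : 3 ≤ k) (hB : IsS2 (univ : Finset V) k r B) (hT : RegAt B r T p)
    {τ : Equiv.Perm V} (hτ : Inverts B T τ) (hr : 1 < r) (hodd : r % 2 = 1)
    (hcop : Nat.Coprime r k) (x : V) (hx : x ≠ p) :
    ∃ A : Finset V, (∀ y, y ∈ A ↔ (y = p ∨ ∃ t ∈ T, t x = y)) ∧ A.card = r + 1 ∧
      ∀ b ∈ B, (b ∩ A).card = 0 ∨ (b ∩ A).card = 2 := by
  classical
  set O : Finset V := univ.filter (fun y => ∃ t ∈ T, t x = y) with hO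
  have hpO : p ∉ O := by
    rw [hO, Finset.mem_filter]
    rintro ⟨_, t, ht, h⟩
    exact hx (t.injective (by rw [h, hT.fix t ht]))
  have hOcard : O.card = r := by
    have h1 := sum_ind_univ hB hT hx
    rw [sum_ind] at h1
    exact_mod_cast h1
  have hcap : ∀ b : Finset V, (∑ y ∈ b, ind T x y) = ((b ∩ O).card : ℤ) := by
    intro b
    rw [sum_ind]
    congr 2
    ext y
    rw [Finset.mem_filter, Finset.mem_inter, hO, Finset.mem_filter]
    simp
  refine ⟨insert p O, ?_, ?_, ?_⟩
  · intro y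
    rw [Finset.mem_insert, hO, Finset.mem_filter]
    simp
  · rw [Finset.card_insert_of_notMem hpO, hOcard]
  · intro b hb
    by_cases hpb : p ∈ b
    · right
      have h1 := sum_ind_through hB hT hx hb hpb
      rw [hcap] at h1
      rw [Finset.inter_insert_of_mem hpb, Finset.card_insert_of_notMem]
      · omega
      · intro h; exact hpO (Finset.mem_inter.mp h).2
    · rw [Finset.inter_insert_of_notMem hpb]
      have h1 := (dihedral_main hk hB hT hτ hr hodd hcop).2.2.2.1 x hx b hb hpb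
      rw [hcap] at h1
      omega

end Run7.h570.S2
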