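import Mathlib
import Pool.Agent.Run7.h570.S2.RegAt
import Pool.Agent.Run7.h570.S2.Reverse

/-!
A group of automorphisms regular on the blocks through a point and centralised by an involution.
-/

namespace Run7.h570.S2

open Finset Pointwise

variable {V : Type} [Fintype V] [DecidableEq V] {k r : ℕ} {B : Finset (Finset V)}
  {T : Subgroup (Equiv.Perm V)} {p : V}

/-- `τ` is an involutory automorphism centralising `T`. -/
structure Centralises (B : Finset (Finset V)) (T : Subgroup (Equiv.Perm V)) (τ : Equiv.Perm V) :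
    Prop where
  invol : ∀ x, τ (τ x) = x
  ne_one : τ ≠ 1
  aut : ∀ b ∈ B, τ • b ∈ B
  comm : ∀ t ∈ T, ∀ x, τ (t x) = t (τ x)

/-- **The centralising case.** -/
theorem central_main (hk : 2 ≤ k) (hB : IsS2 (univ : Finset V) k r B) (hT : RegAt B r T p)
    {τ : Equiv.Perm V} (hτ : Centralises B T τ) (hr : 1 < r) (hodd : r % 2 = 1) :
    (∀ b ∈ B, p ∈ b → τ • b = b) ∧
      ((k % 2 = 1 ∧ (∀ x, τ x = x ↔ x = p)) ∨
        (k % 2 = 0 ∧ ∃ H : Finset V, p ∉ H ∧ H.card = r ∧ (∀ x, τ x = x ↔ (x = p ∨ x ∈ H)) ∧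
          (∀ b ∈ B, b ⊆ H ∨ (b ∩ H).card = 1))) := by
  classical
  -- `τ` fixes `p`
  have hτp : τ p = p := by
    obtain ⟨t, ht, ht1⟩ := hT.exists_ne_one hr
    by_contra hne
    apply ht1
    refine hT.free_points hB hne ht ?_
    have h := hτ.comm t ht p
    rw [hT.fix _ ht] at h
    exact h.symm
  have hττ : ∀ b : Finset V, τ • τ • b = b := by
    intro b
    rw [smul_smul]
    have : τ * τ = 1 := by ext x; exact hτ.invol x
    rw [this, one_smul]
  have hcomm : ∀ t ∈ T, ∀ b : Finset V, τ • t • b = t • τ • b := by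
    intro t ht b
    rw [smul_smul, smul_smul]
    have : τ * t = t * τ := by ext x; exact hτ.comm t ht x
    rw [this]
  have hmaps : ∀ b ∈ B.filter (fun b => p ∈ b), τ • b ∈ B.filter (fun b => p ∈ b) := by
    intro b hb
    rw [Finset.mem_filter] at hb ⊢
    refine ⟨hτ.aut b hb.1, ?_⟩
    have := (smul_mem_iff τ b p).mpr hb.2
    rwa [hτp] at this
  obtain ⟨b₀, hb₀', hfb₀⟩ := exists_fixed_of_odd (B.filter (fun b => p ∈ b)) (fun b => τ • b) hmaps
    (fun b _ => hττ b) (by rw [hB.point_degree p (Finset.mem_univ p)]; exact hodd)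
  rw [Finset.mem_filter] at hb₀'
  obtain ⟨hb₀, hpb₀⟩ := hb₀'
  have hfb₀' : τ • b₀ = b₀ := hfb₀
  have hthru : ∀ b ∈ B, p ∈ b → τ • b = b := by
    intro b hb hpb
    obtain ⟨t, ht, htb⟩ := hT.trans b₀ hb₀ hpb₀ b hb hpb
    rw [← htb, hcomm t ht, hfb₀']
  have hmem : ∀ b : Finset V, τ • b = b → ∀ x ∈ b, τ x ∈ b := by
    intro b hfb x hx
    have := (smul_mem_iff τ b x).mpr hx
    rwa [hfb] at this
  refine ⟨hthru, ?_⟩
  -- the fixed points of `τ` on a block through `p`
  set F := univ.filter (fun x => τ x = x) with hF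
  have hFmem : ∀ x, x ∈ F ↔ τ x = x := by intro x; rw [hF, Finset.mem_filter]; simp
  have hFT : ∀ t ∈ T, ∀ b : Finset V, ((t • b) ∩ F).card = (b ∩ F).card := by
    intro t ht b
    have : (t • b) ∩ F = t • (b ∩ F) := by
      ext x
      rw [Finset.mem_inter, hFmem]
      constructor
      · rintro ⟨h1, h2⟩
        have h3 : x = t (t⁻¹ x) := by simp
        rw [h3] at h1 ⊢
        rw [smul_mem_iff] at h1 ⊢
        rw [Finset.mem_inter, hFmem]
        refine ⟨h1, ?_⟩
        rw [hτ.comm t⁻¹ (T.inv_mem ht), h2]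
      · intro h1
        have h3 : x = t (t⁻¹ x) := by simp
        rw [h3] at h1 ⊢
        rw [smul_mem_iff, Finset.mem_inter, hFmem] at h1
        rw [smul_mem_iff]
        refine ⟨h1.1, ?_⟩
        rw [hτ.comm t ht, h1.2]
    rw [this, card_smul]
  set m := (b₀ ∩ F).card with hm
  have hmconst : ∀ b ∈ B, p ∈ b → (b ∩ F).card = m := by
    intro b hb hpb
    obtain ⟨t, ht, htb⟩ := hT.trans b₀ hb₀ hpb₀ b hb hpb
    rw [← htb, hFT t ht]
  have hpF : p ∈ F := (hFmem p).mpr hτp
  have hm1 : 1 ≤ m := Finset.card_pos.mpr ⟨p, Finset.mem_inter.mpr ⟨hpb₀, hpF⟩⟩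
  -- a block with two fixed points missing `p` is pointwise fixed
  have hline : ∀ b ∈ B, p ∉ b → ∀ x ∈ b, ∀ z ∈ b, x ≠ z → x ∈ F → z ∈ F → b ⊆ F := by
    intro b hb hpb x hx z hz hxz hxF hzF
    rw [hFmem] at hxF hzF
    have hfb : τ • b = b := by
      refine hB.unique_block hxz (hτ.aut b hb) ?_ ?_ hb hx hz
      · have := (smul_mem_iff τ b x).mpr hx
        rwa [hxF] at this
      · have := (smul_mem_iff τ b z).mpr hz
        rwa [hzF] at this
    intro y hy
    rw [hFmem]
    by_contra hne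
    have hyp : p ≠ y := fun h => hpb (by rw [h]; exact hy)
    obtain ⟨c, hc, hpc, hyc⟩ := hB.exists_block (Finset.mem_univ p) (Finset.mem_univ y) hyp
    have hcb : c = b := hB.unique_block hne hc (hmem c (hthru c hc hpc) y hyc) hyc hb
      (hmem b hfb y hy) hy
    exact hpb (by rw [← hcb]; exact hpc)
  -- count of fixed points off a block through `p`
  have hcount : ∀ c ∈ B, p ∈ c → (F \ c).card = (r - 1) * (m - 1) := by
    intro c hc hpc
    have h1 : F \ c = ((B.filter (fun b => p ∈ b)).erase c).biUnion (fun b => (b ∩ F).erase p) := by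
      ext x
      rw [Finset.mem_sdiff, Finset.mem_biUnion]
      constructor
      · rintro ⟨hx, hxc⟩
        have hxp : p ≠ x := fun h => hxc (by rw [← h]; exact hpc)
        obtain ⟨b, hb, hpb, hxb⟩ := hB.exists_block (Finset.mem_univ p) (Finset.mem_univ x) hxp
        refine ⟨b, ?_, ?_⟩
        · rw [Finset.mem_erase, Finset.mem_filter]
          exact ⟨fun h => hxc (by rw [← h]; exact hxb), hb, hpb⟩
        · rw [Finset.mem_erase, Finset.mem_inter]
          exact ⟨hxp.symm, hxb, hx⟩
      · rintro ⟨b, hb, hxb⟩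
        rw [Finset.mem_erase, Finset.mem_filter] at hb
        rw [Finset.mem_erase, Finset.mem_inter] at hxb
        refine ⟨hxb.2.2, fun hxc => hb.1 ?_⟩
        exact hB.unique_block hxb.1.symm hb.2.1 hb.2.2 hxb.2.1 hc hpc hxc
    rw [h1, Finset.card_biUnion]
    · rw [Finset.sum_const_nat (m := m - 1)]
      · rw [Finset.card_erase_of_mem (by rw [Finset.mem_filter]; exact ⟨hc, hpc⟩),
          hB.point_degree p (Finset.mem_univ p)]
      · intro b hb
        rw [Finset.mem_erase, Finset.mem_filter] at hb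
        rw [Finset.card_erase_of_mem (by rw [Finset.mem_inter]; exact ⟨hb.2.2, hpF⟩),
          hmconst b hb.2.1 hb.2.2]
    · intro b hb d hd hbd
      rw [Finset.mem_coe, Finset.mem_erase, Finset.mem_filter] at hb hd
      show Disjoint ((b ∩ F).erase p) ((d ∩ F).erase p)
      rw [Finset.disjoint_left]
      intro x hx hx'
      rw [Finset.mem_erase, Finset.mem_inter] at hx hx'
      exact hbd (hB.unique_block hx.1.symm hb.2.1 hb.2.2 hx.2.1 hd.2.1 hd.2.2 hx'.2.1)
  -- a non-fixed point
  obtain ⟨y, hy⟩ : ∃ y, τ y ≠ y := by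
    by_contra hcon
    push Not at hcon
    exact hτ.ne_one (Equiv.ext hcon)
  -- through a non-fixed point
  have hinj : ∀ y, τ y ≠ y → ∃ c ∈ B, p ∈ c ∧ y ∈ c ∧ ∃ β : V → Finset V,
      (∀ x ∈ F \ c, β x ∈ (B.filter (fun b => y ∈ b)).erase c ∧ x ∈ β x) ∧
      Set.InjOn β ((F \ c : Finset V) : Set V) := by
    intro y hy
    have hyp : p ≠ y := fun h => hy (by rw [← h]; exact hτp)
    obtain ⟨c, hc, hpc, hyc⟩ := hB.exists_block (Finset.mem_univ p) (Finset.mem_univ y) hyp
    have hex : ∀ x ∈ F \ c, ∃ b ∈ (B.filter (fun b => y ∈ b)).erase c, x ∈ b := by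
      intro x hx
      rw [Finset.mem_sdiff] at hx
      have hyx : y ≠ x := fun h => hx.2 (by rw [← h]; exact hyc)
      obtain ⟨b, hb, hyb, hxb⟩ := hB.exists_block (Finset.mem_univ y) (Finset.mem_univ x) hyx
      refine ⟨b, ?_, hxb⟩
      rw [Finset.mem_erase, Finset.mem_filter]
      exact ⟨fun h => hx.2 (by rw [← h]; exact hxb), hb, hyb⟩
    choose! β hβ1 hβ2 using hex
    refine ⟨c, hc, hpc, hyc, β, fun x hx => ⟨hβ1 x hx, hβ2 x hx⟩, ?_⟩
    intro x hx z hz hxz
    rw [Finset.mem_coe] at hx hz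
    by_contra hne
    have h1 := hβ1 x hx
    rw [Finset.mem_erase, Finset.mem_filter] at h1
    have h2 := hβ2 x hx
    have h3 := hβ2 z hz
    rw [← hxz] at h3
    have hpβ : p ∉ β x := by
      intro h
      exact h1.1 (hB.unique_block hyp h1.2.1 h h1.2.2 hc hpc hyc)
    have h4 := hline (β x) h1.2.1 hpβ x h2 z h3 hne (Finset.mem_sdiff.mp hx).1
      (Finset.mem_sdiff.mp hz).1 h1.2.2
    exact hy ((hFmem y).mp h4)
  have hErase : ∀ y : V, ∀ c ∈ B, y ∈ c → ((B.filter (fun b => y ∈ b)).erase c).card = r - 1 := by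
    intro y c hc hyc
    rw [Finset.card_erase_of_mem (by rw [Finset.mem_filter]; exact ⟨hc, hyc⟩),
      hB.point_degree y (Finset.mem_univ y)]
  have hm2 : m ≤ 2 := by
    obtain ⟨c, hc, hpc, hyc, β, hβ, hβi⟩ := hinj y hy
    have h1 : (F \ c).card ≤ r - 1 := by
      rw [← hErase y c hc hyc]
      exact Finset.card_le_card_of_injOn β (fun x hx => (hβ x hx).1) hβi
    rw [hcount c hc hpc] at h1
    by_contra hcon
    push Not at hcon
    have : (r - 1) * 2 ≤ (r - 1) * (m - 1) := Nat.mul_le_mul_left _ (by omega)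
    omega
  -- parity of `k - m`
  have hpar : (b₀ \ F).card % 2 = 0 := by
    refine even_of_free (b₀ \ F) τ ?_ (fun x _ => hτ.invol x) ?_
    · intro x hx
      rw [Finset.mem_sdiff] at hx ⊢
      refine ⟨hmem b₀ hfb₀' x hx.1, fun h => hx.2 ?_⟩
      rw [hFmem] at h ⊢
      rw [hτ.invol] at h; exact h.symm
    · intro x hx h
      rw [Finset.mem_sdiff, hFmem] at hx
      exact hx.2 h
  have hkm : (b₀ \ F).card + m = k := by
    rw [hm, ← hB.block_size b₀ hb₀]
    exact Finset.card_sdiff_add_card_inter b₀ F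
  rcases (show m = 1 ∨ m = 2 by omega) with hm' | hm'
  · left
    refine ⟨by omega, fun x => ⟨fun hx => ?_, fun hx => by rw [hx]; exact hτp⟩⟩
    by_contra hxp
    obtain ⟨b, hb, hpb, hxb⟩ :=
      hB.exists_block (Finset.mem_univ p) (Finset.mem_univ x) (fun h => hxp h.symm)
    have h1 := hmconst b hb hpb
    rw [hm', Finset.card_eq_one] at h1
    obtain ⟨a, ha⟩ := h1
    have h2 : p ∈ b ∩ F := Finset.mem_inter.mpr ⟨hpb, hpF⟩
    have h3 : x ∈ b ∩ F := Finset.mem_inter.mpr ⟨hxb, (hFmem x).mpr hx⟩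
    rw [ha, Finset.mem_singleton] at h2 h3
    exact hxp (by rw [h3, h2])
  · right
    refine ⟨by omega, F.erase p, Finset.notMem_erase p F, ?_, ?_, ?_⟩
    · -- `|H| = r`
      have h1 := hcount b₀ hb₀ hpb₀
      rw [hm'] at h1
      have h2 : (F \ b₀).card + (F ∩ b₀).card = F.card := Finset.card_sdiff_add_card_inter F b₀
      rw [Finset.inter_comm, ← hm, h1, hm'] at h2
      rw [Finset.card_erase_of_mem hpF]
      omega
    · intro x
      rw [Finset.mem_erase, hFmem]
      constructor
      · intro h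
        by_cases hxp : x = p
        · left; exact hxp
        · right; exact ⟨hxp, h⟩
      · rintro (h | h)
        · rw [h]; exact hτp
        · exact h.2
    · intro b hb
      by_cases hpb : p ∈ b
      · right
        have h1 : b ∩ F.erase p = (b ∩ F).erase p := by
          ext x; rw [Finset.mem_inter, Finset.mem_erase, Finset.mem_erase, Finset.mem_inter]; tauto
        rw [h1, Finset.card_erase_of_mem (Finset.mem_inter.mpr ⟨hpb, hpF⟩), hmconst b hb hpb, hm']
      · by_cases hbF : b ⊆ F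
        · left
          intro x hx
          rw [Finset.mem_erase]
          exact ⟨fun h => hpb (by rw [← h]; exact hx), hbF hx⟩
        · right
          have h1 : b ∩ F.erase p = b ∩ F := by
            ext x
            rw [Finset.mem_inter, Finset.mem_erase, Finset.mem_inter]
            exact ⟨fun h => ⟨h.1, h.2.2⟩, fun h => ⟨h.1, fun h' => hpb (by rw [← h']; exact h.1), h.2⟩⟩
          rw [h1]
          obtain ⟨z, hz, hzF⟩ := Finset.not_subset.mp hbF
          rw [hFmem] at hzF
          obtain ⟨c, hc, hpc, hzc, β, hβ, hβi⟩ := hinj z hzF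
          -- β is onto
          have h2 : (F \ c).image β = (B.filter (fun b => z ∈ b)).erase c := by
            apply Finset.eq_of_subset_of_card_le
            · intro d hd
              obtain ⟨x, hx, rfl⟩ := Finset.mem_image.mp hd
              exact (hβ x hx).1
            · rw [Finset.card_image_of_injOn hβi, hcount c hc hpc, hErase z c hc hzc, hm']
              omega
          have h3 : b ∈ (F \ c).image β := by
            rw [h2, Finset.mem_erase, Finset.mem_filter]
            exact ⟨fun h => hpb (by rw [h]; exact hpc), hb, hz⟩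
          obtain ⟨x, hx, hxb⟩ := Finset.mem_image.mp h3
          have h4 : x ∈ b := by rw [← hxb]; exact (hβ x hx).2
          rw [Finset.mem_sdiff] at hx
          rw [Finset.card_eq_one]
          refine ⟨x, ?_⟩
          ext w
          rw [Finset.mem_inter, Finset.mem_singleton]
          constructor
          · rintro ⟨hw, hwF⟩
            by_contra hne
            exact hbF (hline b hb hpb w hw x h4 hne hwF hx.1)
          · rintro rfl
            exact ⟨h4, hx.1⟩

end Run7.h570.S2
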