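import Mathlib
import Pool.Agent.Run7.h570.Normaliser
import Pool.Agent.Run7.h570.S2.RegAt
import Pool.Agent.Run7.h570.S2.Dihedral3
import Pool.Agent.Run7.h570.S2.Central

/-!
Automorphisms of prime order `r` of a Steiner system of strength two in which each point is on
`r` blocks, and the involutions that normalise them.
-/

namespace Run7.h570.S2

open Finset Pointwise

variable {V : Type} [Fintype V] [DecidableEq V] {k r : ℕ} {B : Finset (Finset V)}

/-- An automorphism of prime order `r > k` fixes exactly one point `p`, fixes no block, and is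
regular on the blocks through `p`. -/
lemma sigma_facts (hk : 2 ≤ k) (hp : r.Prime) (hkr : k < r) (hB : IsS2 (univ : Finset V) k r B)
    (σ : Equiv.Perm V) (hσB : ∀ b ∈ B, σ • b ∈ B) (hσ : orderOf σ = r) :
    ∃ p : V, RegAt B r (Subgroup.zpowers σ) p ∧ (∀ x, σ x = x → x = p) ∧
      (∀ b ∈ B, σ • b ≠ b) := by
  classical
  have hr2 := hp.two_le
  have hσp : σ ^ r = 1 := by rw [← hσ]; exact pow_orderOf_eq_one σ
  have hσ1 : σ ≠ 1 := by
    intro h; rw [h, orderOf_one] at hσ; omega
  obtain ⟨y₀, hy₀⟩ : ∃ y, σ y ≠ y := by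
    by_contra hcon
    push Not at hcon
    exact hσ1 (Equiv.ext hcon)
  have hv := hB.card_points ⟨y₀, Finset.mem_univ y₀⟩ (by omega)
  -- a block fixed by σ consists of fixed points
  have hfixblock : ∀ b ∈ B, σ • b = b → ∀ x ∈ b, σ x = x := by
    intro b hb hσb x hx
    by_contra hne
    have h1 := prime_dvd_moved hp σ hσp b hσb
    have h2 : 0 < (b.filter (fun x => σ x ≠ x)).card :=
      Finset.card_pos.mpr ⟨x, by rw [Finset.mem_filter]; exact ⟨hx, hne⟩⟩
    have h3 := Nat.le_of_dvd h2 h1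
    have h4 := Finset.card_filter_le b (fun x => σ x ≠ x)
    rw [hB.block_size b hb] at h4
    omega
  have hfixblock2 : ∀ b ∈ B, ∀ x ∈ b, ∀ y ∈ b, x ≠ y → σ x = x → σ y = y → σ • b = b := by
    intro b hb x hx y hy hxy hσx hσy
    refine hB.unique_block hxy (hσB b hb) ?_ ?_ hb hx hy
    · have := (smul_mem_iff σ b x).mpr hx
      rwa [hσx] at this
    · have := (smul_mem_iff σ b y).mpr hy
      rwa [hσy] at this
  -- exactly one fixed point
  have hFmod : r ∣ (univ.filter (fun x => σ x ≠ x)).card :=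
    prime_dvd_moved hp σ hσp univ (by ext x; simp)
  have hFsum := Finset.card_filter_add_card_filter_not (s := (univ : Finset V)) (fun x => σ x = x)
  rw [hv] at hFsum
  have hFle : (univ.filter (fun x => σ x = x)).card ≤ r := by
    have hex : ∀ z ∈ (univ.filter (fun x => σ x = x)), ∃ b ∈ B, y₀ ∈ b ∧ z ∈ b := by
      intro z hz
      rw [Finset.mem_filter] at hz
      exact hB.exists_block (Finset.mem_univ y₀) (Finset.mem_univ z)
        (fun h => hy₀ (by rw [h]; exact hz.2))
    choose! β hβB hyβ hzβ using hex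
    rw [← hB.point_degree y₀ (Finset.mem_univ y₀)]
    refine Finset.card_le_card_of_injOn β ?_ ?_
    · intro z hz
      rw [Finset.mem_coe, Finset.mem_filter]
      exact ⟨hβB z hz, hyβ z hz⟩
    · intro z hz z' hz' hzz
      by_contra hne
      have h1 : z' ∈ β z := by rw [hzz]; exact hzβ z' hz'
      have h2 := hfixblock2 (β z) (hβB z hz) z (hzβ z hz) z' h1 hne
        (Finset.mem_filter.mp hz).2 (Finset.mem_filter.mp hz').2
      exact hy₀ (hfixblock (β z) (hβB z hz) h2 y₀ (hyβ z hz))
  have hFone : (univ.filter (fun x => σ x = x)).card = 1 := by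
    have h1 : (univ.filter (fun x => σ x = x)).card ≡ 1 [MOD r] := by
      have h2 : (univ.filter (fun x => σ x = x)).card + (univ.filter (fun x => σ x ≠ x)).card
          ≡ 1 [MOD r] := by
        simp only [ne_eq] at hFsum ⊢
        rw [hFsum]
        have : r * (k - 1) + 1 ≡ 0 + 1 [MOD r] :=
          Nat.ModEq.add_right 1 ((Nat.modEq_zero_iff_dvd).mpr (dvd_mul_right r (k - 1)))
        simpa using this
      have h3 : (univ.filter (fun x => σ x ≠ x)).card ≡ 0 [MOD r] :=
        (Nat.modEq_zero_iff_dvd).mpr hFmod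
      have h4 := Nat.ModEq.add_left (univ.filter (fun x => σ x = x)).card h3
      exact (h4.symm.trans h2)
    have h5 : (univ.filter (fun x => σ x = x)).card % r = 1 % r := h1
    rw [Nat.mod_eq_of_lt (show 1 < r by omega)] at h5
    rcases Nat.lt_or_ge (univ.filter (fun x => σ x = x)).card r with h6 | h6
    · rwa [Nat.mod_eq_of_lt h6] at h5
    · have h7 : (univ.filter (fun x => σ x = x)).card = r := le_antisymm hFle h6
      rw [h7, Nat.mod_self] at h5
      omega
  obtain ⟨p, hpF⟩ := Finset.card_eq_one.mp hFone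
  have hσpt : σ p = p := by
    have : p ∈ univ.filter (fun x => σ x = x) := by rw [hpF]; simp
    simpa using this
  have hpuniq : ∀ x, σ x = x → x = p := by
    intro x hx
    have : x ∈ univ.filter (fun x => σ x = x) := by simp [hx]
    rw [hpF] at this; simpa using this
  have hblocknofix : ∀ b ∈ B, σ • b ≠ b := by
    intro b hb hσb
    have h1 : 1 < b.card := by rw [hB.block_size b hb]; omega
    obtain ⟨x, hx, hxp⟩ := Finset.exists_mem_ne h1 p
    exact hxp (hpuniq x (hfixblock b hb hσb x hx))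
  have hTfix : ∀ t ∈ Subgroup.zpowers σ, t p = p := by
    intro t ht
    have h1 : σ ∈ MulAction.stabilizer (Equiv.Perm V) p := hσpt
    have h2 : Subgroup.zpowers σ ≤ MulAction.stabilizer (Equiv.Perm V) p := by
      rw [Subgroup.zpowers_le]; exact h1
    exact h2 ht
  have hpowB : ∀ n : ℕ, ∀ b ∈ B, σ ^ n • b ∈ B := pow_smul_mem σ hσB
  have hTmem : ∀ t ∈ Subgroup.zpowers σ, ∃ n : ℕ, n < r ∧ σ ^ n = t := by
    intro t ht
    rw [← mem_powers_iff_mem_zpowers] at ht
    obtain ⟨m, hm⟩ := ht
    refine ⟨m % r, Nat.mod_lt _ (by omega), ?_⟩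
    rw [← hm]
    show σ ^ (m % r) = σ ^ m
    rw [← hσ, pow_mod_orderOf]
  have hTB : ∀ t ∈ Subgroup.zpowers σ, ∀ b ∈ B, t • b ∈ B := by
    intro t ht b hb
    obtain ⟨n, _, rfl⟩ := hTmem t ht
    exact hpowB n b hb
  -- powers of σ act semiregularly on blocks
  have hsemi : ∀ b ∈ B, ∀ n : ℕ, σ ^ n • b = b → r ∣ n := by
    intro b hb n hn
    by_contra hnd
    have hcop : Nat.Coprime n r := ((Nat.Prime.coprime_iff_not_dvd hp).mpr hnd).symm
    have h1 : σ ∈ Subgroup.zpowers (σ ^ n) := by
      rw [← hσ] at hcop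
      obtain ⟨m, hm⟩ := exists_pow_eq_self_of_coprime hcop
      exact ⟨m, by show (σ ^ n) ^ (m : ℤ) = σ; rw [zpow_natCast]; exact hm⟩
    have h2 : σ ∈ MulAction.stabilizer (Equiv.Perm V) b := by
      have : Subgroup.zpowers (σ ^ n) ≤ MulAction.stabilizer (Equiv.Perm V) b := by
        rw [Subgroup.zpowers_le]; exact MulAction.mem_stabilizer_iff.mpr hn
      exact this h1
    exact hblocknofix b hb (MulAction.mem_stabilizer_iff.mp h2)
  have hinjpow : ∀ b ∈ B, ∀ m n : ℕ, m < r → n < r → σ ^ m • b = σ ^ n • b → m = n := by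
    have key : ∀ b ∈ B, ∀ m n : ℕ, m ≤ n → n < r → σ ^ m • b = σ ^ n • b → m = n := by
      intro b hb m n hmn hn h
      have h1 : σ ^ (n - m) • b = b := by
        have h2 : σ ^ n = σ ^ m * σ ^ (n - m) := by rw [← pow_add]; congr 1; omega
        rw [h2, mul_smul] at h
        exact (MulAction.injective (σ ^ m) h).symm
      have h3 := hsemi b hb _ h1
      rcases Nat.eq_zero_or_pos (n - m) with h4 | h4
      · omega
      · have := Nat.le_of_dvd h4 h3; omega
    intro b hb m n hm hn h
    rcases le_total m n with hmn | hmn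
    · exact key b hb m n hmn hn h
    · exact (key b hb n m hmn hm h.symm).symm
  -- transitivity on the blocks through p
  have htrans : ∀ b ∈ B, p ∈ b → ∀ c ∈ B, p ∈ c → ∃ t ∈ Subgroup.zpowers σ, t • b = c := by
    intro b hb hpb c hc hpc
    have hsub : (Finset.range r).image (fun n => σ ^ n • b) ⊆ B.filter (fun b => p ∈ b) := by
      intro d hd
      obtain ⟨n, _, rfl⟩ := Finset.mem_image.mp hd
      rw [Finset.mem_filter]
      refine ⟨hpowB n b hb, ?_⟩
      have := (smul_mem_iff (σ ^ n) b p).mpr hpb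
      rwa [hTfix (σ ^ n) (Subgroup.npow_mem_zpowers σ n)] at this
    have hcard : ((Finset.range r).image (fun n => σ ^ n • b)).card = r := by
      rw [Finset.card_image_of_injOn, Finset.card_range]
      intro m hm n hn h
      rw [Finset.mem_coe, Finset.mem_range] at hm hn
      exact hinjpow b hb m n hm hn h
    have heq := Finset.eq_of_subset_of_card_le hsub
      (by rw [hcard, hB.point_degree p (Finset.mem_univ p)])
    have : c ∈ (Finset.range r).image (fun n => σ ^ n • b) := by
      rw [heq, Finset.mem_filter]; exact ⟨hc, hpc⟩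
    obtain ⟨n, _, hnc⟩ := Finset.mem_image.mp this
    exact ⟨σ ^ n, Subgroup.npow_mem_zpowers σ n, hnc⟩
  refine ⟨p, ⟨?_, hTB, hTfix, htrans⟩, hpuniq, hblocknofix⟩
  rw [Nat.card_zpowers, hσ]

/-- **Involutions normalising a group of prime order `r`**, odd block size. -/
theorem involution_normalises (hk3 : 3 ≤ k) (hodd : k % 2 = 1) (hp : r.Prime) (hkr : k < r)
    (hB : IsS2 (univ : Finset V) k r B)
    (σ τ : Equiv.Perm V) (hσB : ∀ b ∈ B, σ • b ∈ B) (hτB : ∀ b ∈ B, τ • b ∈ B)
    (hσ : orderOf σ = r) (hτ2 : τ * τ = 1) (hτ1 : τ ≠ 1) (j : ℕ)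
    (hnorm : τ * σ * τ = σ ^ j) : (univ.filter (fun x => τ x = x)).card = 1 := by
  classical
  have hτ : ∀ x, τ (τ x) = x := by
    intro x
    have := congrArg (fun f : Equiv.Perm V => f x) hτ2
    simpa using this
  obtain ⟨p, hT, hpuniq, hnob⟩ := sigma_facts (by omega) hp hkr hB σ hσB hσ
  have hrodd : r % 2 = 1 := by
    rcases hp.eq_two_or_odd with h | h
    · omega
    · exact h
  have hinvτ : τ⁻¹ = τ := (eq_inv_of_mul_eq_one_left hτ2).symm
  have hjinv : τ * σ ^ j * τ = σ := by
    rw [← hnorm]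
    rw [show τ * (τ * σ * τ) * τ = (τ * τ) * σ * (τ * τ) by group, hτ2]; simp
  have hj2 : σ ^ (j * j) = σ := by
    have h1 : (τ * σ * τ) ^ j = τ * σ ^ j * τ := by
      have h0 := conj_pow (a := τ) (b := σ) (i := j)
      rwa [hinvτ] at h0
    rw [hnorm, ← pow_mul, hjinv] at h1
    exact h1
  have hjj : σ ^ j = σ ∨ σ ^ j = σ⁻¹ := by
    have h1 : (r : ℤ) ∣ (j : ℤ) * j - 1 := by
      have h2 : σ ^ ((j : ℤ) * j - 1) = 1 := by
        rw [zpow_sub, zpow_one, ← Nat.cast_mul, zpow_natCast, hj2, mul_inv_cancel]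
      have h3 := orderOf_dvd_iff_zpow_eq_one.mpr h2
      rw [hσ] at h3
      exact h3
    have h4 : (r : ℤ) ∣ ((j : ℤ) - 1) * (j + 1) := by
      have : ((j : ℤ) - 1) * (j + 1) = (j : ℤ) * j - 1 := by ring
      rw [this]; exact h1
    have hpi : Prime (r : ℤ) := Nat.prime_iff_prime_int.mp hp
    rcases hpi.dvd_or_dvd h4 with h5 | h5
    · left
      have : σ ^ ((j : ℤ) - 1) = 1 := by
        rw [← orderOf_dvd_iff_zpow_eq_one, hσ]; exact h5
      rw [zpow_sub, zpow_one, zpow_natCast, mul_inv_eq_one] at this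
      exact this
    · right
      have : σ ^ ((j : ℤ) + 1) = 1 := by
        rw [← orderOf_dvd_iff_zpow_eq_one, hσ]; exact h5
      rw [zpow_add, zpow_one, zpow_natCast] at this
      exact eq_inv_of_mul_eq_one_left this
  rcases hjj with hcomm | hinvert
  · -- τ commutes with σ
    have hc : Commute τ σ := by
      have h1 : τ * σ * τ * τ = σ ^ j * τ := by rw [hnorm]
      rw [mul_assoc (τ * σ) τ τ, hτ2, mul_one, hcomm] at h1
      exact h1
    have hC : Centralises B (Subgroup.zpowers σ) τ := by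
      refine ⟨hτ, hτ1, hτB, ?_⟩
      rintro _ ⟨n, rfl⟩ x
      have := (hc.zpow_right n)
      exact congrArg (fun f : Equiv.Perm V => f x) this
    obtain ⟨_, h | h⟩ := central_main (by omega) hB hT hC (by omega) hrodd
    · rw [Finset.card_eq_one]
      refine ⟨p, ?_⟩
      ext x
      rw [Finset.mem_filter, Finset.mem_singleton, h.2 x]; simp
    · omega
  · exfalso
    have hI : Inverts B (Subgroup.zpowers σ) τ := by
      refine ⟨hτ, hτB, ?_⟩
      rintro _ ⟨n, rfl⟩ x
      have h1 : τ * σ ^ n * τ = (σ ^ n)⁻¹ := by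
        have h0 := conj_zpow (a := τ) (b := σ) (i := n)
        rw [hinvτ, hnorm, hinvert] at h0
        rw [← h0, inv_zpow]
      have h2 : τ * σ ^ n = (σ ^ n)⁻¹ * τ := by
        calc τ * σ ^ n = τ * σ ^ n * (τ * τ) := by rw [hτ2, mul_one]
          _ = (τ * σ ^ n * τ) * τ := by group
          _ = (σ ^ n)⁻¹ * τ := by rw [h1]
      exact congrArg (fun f : Equiv.Perm V => f x) h2
    have hcop : Nat.Coprime r k := by
      rw [Nat.Prime.coprime_iff_not_dvd hp]
      intro h
      have := Nat.le_of_dvd (by omega) h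
      omega
    have := (dihedral_main hk3 hB hT hI (by omega) hrodd hcop).1
    omega

end Run7.h570.S2
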