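import Mathlib
import Pool.Agent.Run7.h570.Normaliser
import Pool.Agent.Run7.h570.TwoGroup
import Pool.Agent.Run7.h570.S2.PrimeR

/-!
Two-groups of automorphisms of Steiner systems of strength two normalised by an automorphism of
prime order `r`.
-/

namespace Run7.h570.S2

open Finset Pointwise

variable {V : Type} [Fintype V] [DecidableEq V] {k r : ℕ} {B : Finset (Finset V)}

/-- A non-identity involution has at most `(r-1)+(k-2)` fixed points. -/
lemma card_fixed_le (hB : IsS2 (univ : Finset V) k r B) (τ : Equiv.Perm V)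
    (hτ1 : τ ≠ 1) (hτ : ∀ x, τ (τ x) = x) (hτB : ∀ b ∈ B, τ • b ∈ B) :
    (univ.filter (fun x => τ x = x)).card ≤ (r - 1) + (k - 2) := by
  obtain ⟨y, hy⟩ : ∃ y, τ y ≠ y := by
    by_contra hcon
    push Not at hcon
    exact hτ1 (Equiv.ext hcon)
  obtain ⟨c, hc, hyc, hτyc⟩ := hB.exists_block (Finset.mem_univ y) (Finset.mem_univ (τ y)) hy.symm
  have hτc : τ • c = c := by
    refine hB.unique_block hy.symm (hτB c hc) ?_ ?_ hc hyc hτyc
    · have := (smul_mem_iff τ c (τ y)).mpr hτyc
      rwa [hτ] at this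
    · exact (smul_mem_iff τ c y).mpr hyc
  -- fixed points off c inject into the blocks through y different from c
  have hle1 : ((univ.filter (fun x => τ x = x)) \ c).card
      ≤ ((B.filter (fun b => y ∈ b)).erase c).card := by
    have hex : ∀ z ∈ (univ.filter (fun x => τ x = x)) \ c, ∃ b ∈ B, y ∈ b ∧ z ∈ b := by
      intro z hz
      rw [Finset.mem_sdiff, Finset.mem_filter] at hz
      have hyz : y ≠ z := fun h => hy (by rw [h]; exact hz.1.2)
      exact hB.exists_block (Finset.mem_univ y) (Finset.mem_univ z) hyz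
    choose! β hβB hyβ hzβ using hex
    refine Finset.card_le_card_of_injOn β ?_ ?_
    · intro z hz
      have hz' := hz
      rw [Finset.mem_coe, Finset.mem_sdiff, Finset.mem_filter] at hz'
      rw [Finset.mem_coe, Finset.mem_erase, Finset.mem_filter]
      refine ⟨fun h => hz'.2 (h ▸ hzβ z hz), hβB z hz, hyβ z hz⟩
    · intro z hz z' hz' hzz
      by_contra hne
      have hz1 := hz
      have hz1' := hz'
      rw [Finset.mem_coe, Finset.mem_sdiff, Finset.mem_filter] at hz1 hz1'
      have h1 : z' ∈ β z := by rw [hzz]; exact hzβ z' hz'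
      have h2 : τ • β z = β z := by
        refine hB.unique_block hne (hτB _ (hβB z hz)) ?_ ?_ (hβB z hz) (hzβ z hz) h1
        · have := (smul_mem_iff τ (β z) z).mpr (hzβ z hz)
          rwa [hz1.1.2] at this
        · have := (smul_mem_iff τ (β z) z').mpr h1
          rwa [hz1'.1.2] at this
      have h3 : τ y ∈ β z := by
        have := (smul_mem_iff τ (β z) y).mpr (hyβ z hz)
        rwa [h2] at this
      have h4 : β z = c := hB.unique_block hy.symm (hβB z hz) (hyβ z hz) h3 hc hyc hτyc
      exact hz1.2 (h4 ▸ hzβ z hz)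
  have hle2 : ((univ.filter (fun x => τ x = x)) ∩ c).card ≤ k - 2 := by
    have h1 : (univ.filter (fun x => τ x = x)) ∩ c ⊆ (c.erase y).erase (τ y) := by
      intro z hz
      rw [Finset.mem_inter, Finset.mem_filter] at hz
      rw [Finset.mem_erase, Finset.mem_erase]
      refine ⟨fun h => hy ?_, fun h => hy ?_, hz.2⟩
      · have := hz.1.2; rw [h, hτ] at this; exact this.symm
      · rw [← h]; exact hz.1.2
    have h2 := Finset.card_le_card h1
    rw [Finset.card_erase_of_mem (by rw [Finset.mem_erase]; exact ⟨hy, hτyc⟩),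
      Finset.card_erase_of_mem hyc, hB.block_size c hc] at h2
    omega
  have h3 : ((B.filter (fun b => y ∈ b)).erase c).card = r - 1 := by
    rw [Finset.card_erase_of_mem (by rw [Finset.mem_filter]; exact ⟨hc, hyc⟩),
      hB.point_degree y (Finset.mem_univ y)]
  have h4 := Finset.card_sdiff_add_card_inter (univ.filter (fun x => τ x = x)) c
  omega

/-- The main counting inequality. -/
lemma group_bound (S : Subgroup (Equiv.Perm V))
    (T : Finset (Equiv.Perm V)) (hT : ∀ s, s ∈ T ↔ s ∈ S) (F : Finset V) (c : ℕ)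
    (I : Finset (Finset V)) (hI : r ≤ I.card)
    (hIinv : ∀ L ∈ I, ∀ s ∈ S, ∀ x ∈ L \ F, s x ∈ L \ F) (hIne : ∀ L ∈ I, (L \ F).Nonempty)
    (hdisj : ∀ L ∈ I, ∀ L' ∈ I, L ≠ L' → Disjoint (L \ F) (L' \ F))
    (hbound : ∀ s ∈ S, s ≠ 1 → ((univ.filter (fun x => s x = x)) \ F).card ≤ c) :
    r * T.card ≤ ((univ : Finset V).card - F.card) + (T.card - 1) * c := by
  classical
  have h1 : r * T.card ≤ ∑ x ∈ univ \ F, (T.filter (fun s => s x = x)).card := by
    calc r * T.card ≤ I.card * T.card := Nat.mul_le_mul_right _ hI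
      _ = ∑ L ∈ I, T.card := by rw [Finset.sum_const, smul_eq_mul]
      _ ≤ ∑ L ∈ I, ∑ x ∈ L \ F, (T.filter (fun s => s x = x)).card :=
          Finset.sum_le_sum (fun L hL => card_le_sum_stab S T hT (L \ F) (hIinv L hL) (hIne L hL))
      _ = ∑ x ∈ I.biUnion (fun L => L \ F), (T.filter (fun s => s x = x)).card := by
          rw [Finset.sum_biUnion]
          intro L hL L' hL' hne
          exact hdisj L hL L' hL' hne
      _ ≤ ∑ x ∈ univ \ F, (T.filter (fun s => s x = x)).card := by
          refine Finset.sum_le_sum_of_subset ?_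
          intro x hx
          rw [Finset.mem_biUnion] at hx
          obtain ⟨L, _, hxL⟩ := hx
          rw [Finset.mem_sdiff] at hxL ⊢
          exact ⟨Finset.mem_univ x, hxL.2⟩
  have h2 : ∑ x ∈ univ \ F, (T.filter (fun s => s x = x)).card
      = ∑ s ∈ T, ((univ.filter (fun x => s x = x)) \ F).card := by
    have h3 : ∀ s ∈ T, ((univ.filter (fun x => s x = x)) \ F).card
        = ∑ x ∈ univ \ F, if s x = x then 1 else 0 := by
      intro s _
      rw [← Finset.card_filter]
      congr 1
      ext x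
      simp only [Finset.mem_sdiff, Finset.mem_filter, Finset.mem_univ, true_and]
      tauto
    rw [Finset.sum_congr rfl h3, Finset.sum_comm]
    refine Finset.sum_congr rfl (fun x _ => ?_)
    rw [Finset.card_filter]
  have h1T : (1 : Equiv.Perm V) ∈ T := (hT 1).mpr S.one_mem
  have h4 : ∑ s ∈ T, ((univ.filter (fun x => s x = x)) \ F).card
      ≤ ((univ : Finset V).card - F.card) + (T.card - 1) * c := by
    rw [← Finset.add_sum_erase T _ h1T]
    refine Nat.add_le_add ?_ ?_
    · have h5 : ((univ.filter (fun x => (1 : Equiv.Perm V) x = x)) \ F).card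
          = (univ : Finset V).card - F.card := by
        have : univ.filter (fun x : V => (1 : Equiv.Perm V) x = x) = univ := by
          ext x; simp
        rw [this, Finset.card_sdiff_of_subset (Finset.subset_univ F)]
      rw [h5]
    · calc ∑ s ∈ T.erase 1, ((univ.filter (fun x => s x = x)) \ F).card
          ≤ ∑ s ∈ T.erase 1, c := by
            refine Finset.sum_le_sum (fun s hs => ?_)
            rw [Finset.mem_erase] at hs
            exact hbound s ((hT s).mp hs.2) hs.1
        _ = (T.card - 1) * c := by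
            rw [Finset.sum_const, Finset.card_erase_of_mem h1T, smul_eq_mul]
  rw [h2] at h1
  exact le_trans h1 h4

/-- An involution fixing `p` and all blocks through `p` has at most `k` fixed points. -/
lemma card_fixed_le_of_central (hk : 3 ≤ k) (hodd : k % 2 = 1)
    (hrk : (r - 1) + (k - 2) < (k - 1) * (k - 1)) (hB : IsS2 (univ : Finset V) k r B)
    (t : Equiv.Perm V) (ht : ∀ x, t (t x) = x) (ht1 : t ≠ 1) (htB : ∀ b ∈ B, t • b ∈ B)
    (p : V) (htp : t p = p) (hlines : ∀ b ∈ B, p ∈ b → t • b = b) :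
    (univ.filter (fun x => t x = x)).card ≤ k := by
  classical
  by_contra hcon
  push Not at hcon
  have hmem : ∀ b ∈ B, t • b = b → ∀ x ∈ b, t x ∈ b := by
    intro b _ htb x hx
    have := (smul_mem_iff t b x).mpr hx
    rwa [htb] at this
  -- a fixed block missing p is pointwise fixed
  have hfull : ∀ b ∈ B, t • b = b → p ∉ b → ∀ x ∈ b, t x = x := by
    intro b hb htb hpb x hx
    by_contra hne
    have hpx : p ≠ x := fun h => hpb (h ▸ hx)
    obtain ⟨c, hc, hpc, hxc⟩ := hB.exists_block (Finset.mem_univ p) (Finset.mem_univ x) hpx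
    have htc := hlines c hc hpc
    have : b = c := hB.unique_block (fun h => hne h.symm : x ≠ t x) hb hx (hmem b hb htb x hx)
      hc hxc (hmem c hc htc x hxc)
    exact hpb (this ▸ hpc)
  -- the block through two fixed points is fixed
  have hfix2 : ∀ b ∈ B, ∀ x ∈ b, ∀ y ∈ b, x ≠ y → t x = x → t y = y → t • b = b := by
    intro b hb x hx y hy hxy htx hty
    refine hB.unique_block hxy (htB b hb) ?_ ?_ hb hx hy
    · have := (smul_mem_iff t b x).mpr hx
      rwa [htx] at this
    · have := (smul_mem_iff t b y).mpr hy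
      rwa [hty] at this
  -- two fixed points on different blocks through p
  obtain ⟨y₁, hy₁, hy₁p⟩ := Finset.exists_mem_ne (show 1 < (univ.filter (fun x => t x = x)).card by
    omega) p
  rw [Finset.mem_filter] at hy₁
  obtain ⟨L₁, hL₁, hpL₁, hyL₁⟩ :=
    hB.exists_block (Finset.mem_univ p) (Finset.mem_univ y₁) (fun h => hy₁p h.symm : p ≠ y₁)
  obtain ⟨y₂, hy₂, hy₂L⟩ : ∃ y₂ ∈ univ.filter (fun x => t x = x), y₂ ∉ L₁ := by
    by_contra hall
    push Not at hall
    have := Finset.card_le_card (show univ.filter (fun x => t x = x) ⊆ L₁ from hall)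
    rw [hB.block_size L₁ hL₁] at this
    omega
  rw [Finset.mem_filter] at hy₂
  have hy₁₂ : y₁ ≠ y₂ := fun h => hy₂L (h ▸ hyL₁)
  obtain ⟨b, hb, hy₁b, hy₂b⟩ := hB.exists_block (Finset.mem_univ y₁) (Finset.mem_univ y₂) hy₁₂
  have htb := hfix2 b hb y₁ hy₁b y₂ hy₂b hy₁₂ hy₁.2 hy₂.2
  have hpb : p ∉ b := by
    intro hpb
    have : b = L₁ := hB.unique_block hy₁p hb hy₁b hpb hL₁ hyL₁ hpL₁
    exact hy₂L (this ▸ hy₂b)
  have hbfix := hfull b hb htb hpb
  -- a third fixed point on L₁
  have hoddL := odd_fixed t ht L₁ (hlines L₁ hL₁ hpL₁) (by rw [hB.block_size L₁ hL₁]; exact hodd)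
  obtain ⟨z, hzL, hzt, hzp, hzy⟩ : ∃ z ∈ L₁, t z = z ∧ z ≠ p ∧ z ≠ y₁ := by
    have h1 : p ∈ L₁.filter (fun x => t x = x) := by rw [Finset.mem_filter]; exact ⟨hpL₁, htp⟩
    have h2 : y₁ ∈ (L₁.filter (fun x => t x = x)).erase p := by
      rw [Finset.mem_erase, Finset.mem_filter]; exact ⟨hy₁p, hyL₁, hy₁.2⟩
    have h3 : 0 < ((L₁.filter (fun x => t x = x)).erase p).card := Finset.card_pos.mpr ⟨_, h2⟩
    rw [Finset.card_erase_of_mem h1] at h3
    have h4 : 0 < (((L₁.filter (fun x => t x = x)).erase p).erase y₁).card := by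
      rw [Finset.card_erase_of_mem h2, Finset.card_erase_of_mem h1]; omega
    obtain ⟨z, hz⟩ := Finset.card_pos.mp h4
    rw [Finset.mem_erase, Finset.mem_erase, Finset.mem_filter] at hz
    exact ⟨z, hz.2.2.1, hz.2.2.2, hz.2.1, hz.1⟩
  have hzb : z ∉ b := by
    intro hzb
    have : b = L₁ := hB.unique_block hzy hb hzb hy₁b hL₁ hzL hyL₁
    exact hpb (this ▸ hpL₁)
  -- blocks through z and the points of b other than y₁
  have hex : ∀ y ∈ b.erase y₁, ∃ c ∈ B, z ∈ c ∧ y ∈ c := by
    intro y hy
    rw [Finset.mem_erase] at hy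
    exact hB.exists_block (Finset.mem_univ z) (Finset.mem_univ y) (fun h => hzb (h ▸ hy.2))
  choose! c hcB hzc hyc using hex
  have hcfix : ∀ y ∈ b.erase y₁, ∀ x ∈ c y, t x = x := by
    intro y hy
    have hy' := hy
    rw [Finset.mem_erase] at hy'
    have hzy' : z ≠ y := fun h => hzb (h ▸ hy'.2)
    have htc := hfix2 (c y) (hcB y hy) z (hzc y hy) y (hyc y hy) hzy' hzt (hbfix y hy'.2)
    refine hfull (c y) (hcB y hy) htc ?_
    intro hpc
    have h1 : c y = L₁ := hB.unique_block hzp (hcB y hy) (hzc y hy) hpc hL₁ hzL hpL₁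
    have h2 : y ∈ L₁ := h1 ▸ hyc y hy
    have h3 : b = L₁ := hB.unique_block hy'.1 hb hy'.2 hy₁b hL₁ h2 hyL₁
    exact hpb (h3 ▸ hpL₁)
  have hsub : (b.erase y₁).biUnion (fun y => (c y).erase z) ⊆ univ.filter (fun x => t x = x) := by
    intro x hx
    rw [Finset.mem_biUnion] at hx
    obtain ⟨y, hy, hxy⟩ := hx
    rw [Finset.mem_filter]
    exact ⟨Finset.mem_univ x, hcfix y hy x (Finset.mem_of_mem_erase hxy)⟩
  have hcard : ((b.erase y₁).biUnion (fun y => (c y).erase z)).card = (k - 1) * (k - 1) := by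
    rw [Finset.card_biUnion]
    · rw [Finset.sum_congr rfl (g := fun _ => k - 1)]
      · rw [Finset.sum_const, Finset.card_erase_of_mem hy₁b, hB.block_size b hb, smul_eq_mul]
      · intro y hy
        rw [Finset.card_erase_of_mem (hzc y hy), hB.block_size _ (hcB y hy)]
    · intro y hy y' hy' hne
      rw [Finset.mem_coe] at hy hy'
      show Disjoint ((c y).erase z) ((c y').erase z)
      rw [Finset.disjoint_left]
      intro x hx hx'
      rw [Finset.mem_erase] at hx hx'
      have h1 : c y = c y' := hB.unique_block hx.1 (hcB y hy) hx.2 (hzc y hy) (hcB y' hy') hx'.2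
        (hzc y' hy')
      have h2 : y' ∈ c y := h1 ▸ hyc y' hy'
      have h3 : c y = b := hB.unique_block hne (hcB y hy) (hyc y hy) h2 hb
        (Finset.mem_of_mem_erase hy) (Finset.mem_of_mem_erase hy')
      exact hzb (h3 ▸ hzc y hy)
  have h1 := Finset.card_le_card hsub
  have h2 := card_fixed_le hB t ht1 ht htB
  rw [hcard] at h1
  omega

end Run7.h570.S2
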