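import Mathlib
import Pool.Agent.Run7.h570.GroupPart
import Pool.Agent.Run7.h570.S2.TwoGroup2

/-!
Solvable groups of automorphisms of Steiner systems of strength two whose order is divisible by the
prime `r`, the number of blocks through a point.
-/

namespace Run7.h570.S2

open Finset Pointwise

variable {V : Type} [Fintype V] [DecidableEq V] {k r : ℕ} {B : Finset (Finset V)}

/-- The square of the prime `r` does not divide the order of a group of automorphisms. -/
lemma not_sq_dvd (hk : 2 ≤ k) (hp : r.Prime) (hkr : k < r) (hB : IsS2 (univ : Finset V) k r B)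
    (G : Subgroup (Equiv.Perm V)) (hG : ∀ g ∈ G, ∀ b ∈ B, g • b ∈ B) :
    ¬ r ^ 2 ∣ Nat.card G := by
  classical
  intro hdvd
  have : Fact r.Prime := ⟨hp⟩
  have hr2 := hp.two_le
  obtain ⟨R, hR⟩ := Sylow.exists_subgroup_card_pow_prime (G := G) r (n := 2) hdvd
  have hRp : IsPGroup r R := IsPGroup.of_card hR
  -- an element of order r
  have hRd : r ∣ Nat.card R := by rw [hR]; exact dvd_pow_self _ (by norm_num)
  obtain ⟨σ₀, hσ₀⟩ := exists_prime_orderOf_dvd_card' (G := R) r hRd
  have hfacts : ∀ s : R, orderOf s = r → ∃ p : V, ((s : G) : Equiv.Perm V) p = p ∧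
      (∀ x, ((s : G) : Equiv.Perm V) x = x → x = p) ∧
      (∀ b ∈ B, ((s : G) : Equiv.Perm V) • b ≠ b) := by
    intro s hs
    have hs' : orderOf ((s : G) : Equiv.Perm V) = r := by
      rw [Subgroup.orderOf_coe, Subgroup.orderOf_coe]; exact hs
    obtain ⟨p, h1, h2, h3⟩ := sigma_facts hk hp hkr hB ((s : G) : Equiv.Perm V)
      (hG _ (s : G).2) hs'
    exact ⟨p, h1.fix _ (Subgroup.mem_zpowers _), h2, h3⟩
  obtain ⟨p, hp1, hp2, _⟩ := hfacts σ₀ hσ₀
  -- R fixes a point
  have hv := hB.card_points ⟨p, Finset.mem_univ p⟩ (by omega)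
  have hRfix : ∀ s : R, ((s : G) : Equiv.Perm V) p = p := by
    have h1 := hRp.card_modEq_card_fixedPoints V
    rw [Nat.card_eq_fintype_card, ← Finset.card_univ, hv] at h1
    have h2 : (MulAction.fixedPoints R V).Nonempty := by
      rw [Set.nonempty_iff_ne_empty]
      intro hemp
      rw [hemp] at h1
      have h3 : Nat.card (∅ : Set V) = 0 := by simp
      rw [h3] at h1
      have h4 : (r * (k - 1) + 1) % r = 0 % r := h1
      rw [Nat.add_mod, Nat.mul_mod_right, zero_add, Nat.zero_mod, Nat.mod_mod] at h4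
      rw [Nat.mod_eq_of_lt (by omega)] at h4
      omega
    obtain ⟨x, hx⟩ := h2
    have hxp : x = p := hp2 x (hx σ₀)
    intro s
    have := hx s
    rw [hxp] at this
    exact this
  -- act on the blocks through p
  obtain ⟨L, hL⟩ := Finset.card_pos.mp (show 0 < (B.filter (fun b => p ∈ b)).card by
    rw [hB.point_degree p (Finset.mem_univ p)]; omega)
  rw [Finset.mem_filter] at hL
  have hstab := Subgroup.card_mul_index (MulAction.stabilizer R L)
  rw [MulAction.index_stabilizer, hR] at hstab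
  have horb : (MulAction.orbit R L).ncard ≤ r := by
    rw [← hB.point_degree p (Finset.mem_univ p), ← Set.ncard_coe_finset]
    refine Set.ncard_le_ncard ?_ (Finset.finite_toSet _)
    rintro _ ⟨s, rfl⟩
    rw [Finset.mem_coe, Finset.mem_filter]
    refine ⟨hG _ (s : G).2 L hL.1, ?_⟩
    have := (smul_mem_iff ((s : G) : Equiv.Perm V) L p).mpr hL.2
    rwa [hRfix s] at this
  have hdiv : Nat.card (MulAction.stabilizer R L) ∣ r ^ 2 := ⟨_, hstab.symm⟩
  obtain ⟨m, hm, hcard⟩ := (Nat.dvd_prime_pow hp).mp hdiv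
  have hm0 : m ≠ 0 := by
    intro h0
    rw [hcard, h0, pow_zero, one_mul] at hstab
    rw [hstab] at horb
    nlinarith
  have hpd : r ∣ Nat.card (MulAction.stabilizer R L) := by
    rw [hcard]; exact dvd_pow_self _ hm0
  obtain ⟨g, hg⟩ := exists_prime_orderOf_dvd_card' (G := MulAction.stabilizer R L) r hpd
  obtain ⟨_, _, _, h3⟩ := hfacts (g : R) (by rw [Subgroup.orderOf_coe]; exact hg)
  exact h3 L hL.1 (MulAction.mem_stabilizer_iff.mp g.2)

/-- Arithmetic of the parameters. -/
lemma params (hk : 3 ≤ k) (hodd : k % 2 = 1) (hp : r.Prime) (hkr : k < r)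
    (hrk : r < k * (k - 1) + 1) (hB : IsS2 (univ : Finset V) k r B) (hne : Nonempty V) :
    2 * k + 1 ≤ r ∧ (r - 1) + (k - 2) < (k - 1) * (k - 1) := by
  obtain ⟨x⟩ := hne
  have hv := hB.card_points ⟨x, Finset.mem_univ x⟩ (by omega)
  have hb := hB.card_blocks
  rw [hv] at hb
  have hcop : Nat.Coprime k r := by
    rw [Nat.coprime_comm, Nat.Prime.coprime_iff_not_dvd hp]
    intro h
    have := Nat.le_of_dvd (by omega) h
    omega
  have h1 : k ∣ (r * (k - 1) + 1) * r := ⟨B.card, by rw [← hb, mul_comm]⟩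
  have h2 : k ∣ r * (k - 1) + 1 := hcop.dvd_of_dvd_mul_right h1
  have hrodd : r % 2 = 1 := by
    rcases hp.eq_two_or_odd with h | h
    · omega
    · exact h
  have h3 : k ∣ r - 1 := by
    have h4 : r * (k - 1) + 1 + (r - 1) = k * r := by
      obtain ⟨a, rfl⟩ : ∃ a, k = a + 1 := ⟨k - 1, by omega⟩
      obtain ⟨b, rfl⟩ : ∃ b, r = b + 1 := ⟨r - 1, by omega⟩
      simp only [Nat.add_sub_cancel]
      ring
    exact (Nat.dvd_add_right h2).mp (by rw [h4]; exact dvd_mul_right k r)
  obtain ⟨s, hs⟩ := h3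
  have hs2 : s % 2 = 0 := by
    have h5 : (k * s) % 2 = 0 := by rw [← hs]; omega
    rw [Nat.mul_mod, hodd] at h5
    omega
  obtain ⟨u, rfl⟩ : ∃ u, s = 2 * u := ⟨s / 2, by omega⟩
  obtain ⟨w, hw⟩ : ∃ w, k = 2 * w + 1 := ⟨k / 2, by omega⟩
  have hu : 1 ≤ u := by
    rcases Nat.eq_zero_or_pos u with h | h
    · rw [h] at hs; omega
    · exact h
  have hr1 : r = k * (2 * u) + 1 := by omega
  have hlt : k * (2 * u) < k * (k - 1) := by omega
  have hlt2 : 2 * u < k - 1 := Nat.lt_of_mul_lt_mul_left hlt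
  have huw : u + 1 ≤ w := by omega
  obtain ⟨v, hvw⟩ : ∃ v, w = u + 1 + v := ⟨w - (u + 1), by omega⟩
  refine ⟨by nlinarith, ?_⟩
  have e1 : r - 1 = k * (2 * u) := by omega
  have e2 : k - 1 = 2 * w := by omega
  have e3 : k - 2 = 2 * w - 1 := by omega
  rw [e1, e2, e3, hw, hvw]
  have h6 : (2 * (u + 1 + v) + 1) * (2 * u) + 2 * (u + 1 + v) ≤
      2 * (u + 1 + v) * (2 * (u + 1 + v)) := by nlinarith
  omega

/-- **Solvable groups of automorphisms**, part one. -/
theorem solvable_involution (hk : 3 ≤ k) (hodd : k % 2 = 1) (hp : r.Prime) (hkr : k < r)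
    (hrk : r < k * (k - 1) + 1)
    (hB : IsS2 (univ : Finset V) k r B) (G : Subgroup (Equiv.Perm V)) (hsol : Group.IsSolvable G)
    (hG : ∀ g ∈ G, ∀ b ∈ B, g • b ∈ B) (hdvd : r ∣ Nat.card G)
    (τ : Equiv.Perm V) (hτG : τ ∈ G) (hτ2 : τ * τ = 1) (hτ1 : τ ≠ 1) :
    (univ.filter (fun x => τ x = x)).card = 1 := by
  classical
  have : Fact r.Prime := ⟨hp⟩
  have hne : Nonempty V := by
    by_contra h
    rw [not_nonempty_iff] at h
    exact hτ1 (Equiv.ext (fun x => h.elim x))
  obtain ⟨hr1, hr2⟩ := params hk hodd hp hkr hrk hB hne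
  have hC : CentTwo r G := by
    intro σ hσ S hS hn s hs
    have h1 := two_group_centralised hk hodd hp hr1 hr2 hB (σ : Equiv.Perm V) (hG _ σ.2)
      (by rw [Subgroup.orderOf_coe]; exact hσ) (S.map G.subtype) (hS.map _)
      (by
        rintro _ ⟨t, _, rfl⟩
        exact hG _ t.2)
      (by
        rintro _ ⟨t, ht, rfl⟩
        exact ⟨σ * t * σ⁻¹, hn t ht, rfl⟩) (s : Equiv.Perm V) ⟨s, hs, rfl⟩
    exact Subtype.ext h1
  obtain ⟨σ, hσ, hmem⟩ := exists_normalised r G hC hdvd
    (not_sq_dvd (by omega) hp hkr hB G hG) ⟨τ, hτG⟩ (Subtype.ext hτ2)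
  have hfin : ∃ j : ℕ, σ ^ j = ⟨τ, hτG⟩ * σ * (⟨τ, hτG⟩ : G)⁻¹ := by
    rwa [← mem_powers_iff_mem_zpowers] at hmem
  obtain ⟨j, hj⟩ := hfin
  have hj' : (σ : Equiv.Perm V) ^ j = τ * σ * τ⁻¹ := congrArg Subtype.val hj
  have hinv : τ⁻¹ = τ := (eq_inv_of_mul_eq_one_left hτ2).symm
  rw [hinv] at hj'
  exact involution_normalises hk hodd hp hkr hB (σ : Equiv.Perm V) τ (hG _ σ.2) (hG _ hτG)
    (by rw [Subgroup.orderOf_coe]; exact hσ) hτ2 hτ1 j hj'.symm

/-- **Solvable groups of automorphisms**, part two: the two-part of the order divides `k-1`. -/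
theorem solvable_two_part (hk : 3 ≤ k) (hodd : k % 2 = 1) (hp : r.Prime) (hkr : k < r)
    (hrk : r < k * (k - 1) + 1)
    (hB : IsS2 (univ : Finset V) k r B) (G : Subgroup (Equiv.Perm V)) (hsol : Group.IsSolvable G)
    (hG : ∀ g ∈ G, ∀ b ∈ B, g • b ∈ B) (hdvd : r ∣ Nat.card G) (hne : Nonempty V)
    (m : ℕ) (hm : 2 ^ m ∣ Nat.card G) : 2 ^ m ∣ k - 1 := by
  classical
  have h2 : Fact (Nat.Prime 2) := ⟨Nat.prime_two⟩
  obtain ⟨x₀⟩ := hne
  have hv := hB.card_points ⟨x₀, Finset.mem_univ x₀⟩ (by omega)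
  have hvodd : (univ : Finset V).card % 2 = 1 := by
    rw [hv]
    have : (k - 1) % 2 = 0 := by omega
    rw [Nat.add_mod, Nat.mul_mod, this]; simp
  obtain ⟨R, hR⟩ := Sylow.exists_subgroup_card_pow_prime (G := G) 2 (n := m) hm
  have hRp : IsPGroup 2 R := IsPGroup.of_card hR
  set S : Subgroup (Equiv.Perm V) := R.map G.subtype with hS
  have hSp : IsPGroup 2 S := hRp.map _
  have hScard : Nat.card S = 2 ^ m := by
    rw [hS, Subgroup.card_map_of_injective G.subtype_injective, hR]
  have hSG : ∀ s ∈ S, s ∈ G := by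
    rintro _ ⟨t, _, rfl⟩
    exact t.2
  obtain ⟨p, hp'⟩ := two_group_fixes S hSp hvodd
  -- semiregular off `p`
  have hfree : ∀ s ∈ S, ∀ x, x ≠ p → s x = x → s = 1 := by
    intro s hs x hxp hsx
    by_contra hs1
    obtain ⟨n, hn1, hn2⟩ := exists_involution_pow S hSp s hs hs1
    have hfixpow : ∀ y, s y = y → (s ^ n) y = y := by
      intro y hy
      have : ∀ m : ℕ, (s ^ m) y = y := by
        intro m
        induction m with
        | zero => rfl
        | succ m ih => rw [pow_succ', Equiv.Perm.mul_apply, ih, hy]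
      exact this n
    have h1 := solvable_involution hk hodd hp hkr hrk hB G hsol hG hdvd (s ^ n)
      (hSG _ (S.pow_mem hs n)) hn2 hn1
    obtain ⟨q, hq⟩ := Finset.card_eq_one.mp h1
    have h3 : x ∈ univ.filter (fun x => (s ^ n) x = x) := by
      rw [Finset.mem_filter]; exact ⟨Finset.mem_univ x, hfixpow x hsx⟩
    have h4 : p ∈ univ.filter (fun x => (s ^ n) x = x) := by
      rw [Finset.mem_filter]; exact ⟨Finset.mem_univ p, hfixpow p (hp' s hs)⟩
    rw [hq, Finset.mem_singleton] at h3 h4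
    exact hxp (by rw [h3, h4])
  -- count
  have hdvd2 : Nat.card S ∣ Nat.card {x : V // x ≠ p} := by
    let act : MulAction S {x : V // x ≠ p} :=
      { smul := fun s x => ⟨(s : Equiv.Perm V) x.1, fun h => x.2 (by
          have h1 := hp' (s : Equiv.Perm V) s.2
          exact (s : Equiv.Perm V).injective (by rw [h, h1]))⟩
        one_smul := fun x => Subtype.ext rfl
        mul_smul := fun s s' x => Subtype.ext rfl }
    have h1 : Nat.card {x : V // x ≠ p} =
        Nat.card (MulAction.orbitRel.Quotient S {x : V // x ≠ p}) * Nat.card S := by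
      rw [← Nat.card_prod]
      refine Nat.card_congr ?_
      refine (MulAction.selfEquivSigmaOrbitsQuotientStabilizer S {x : V // x ≠ p}).trans ?_
      refine (Equiv.sigmaCongrRight (fun ω => ?_)).trans (Equiv.sigmaEquivProd _ _)
      have hbot : MulAction.stabilizer S ω.out = ⊥ := by
        rw [eq_bot_iff]
        intro s hs
        rw [Subgroup.mem_bot]
        have h2 : (s : Equiv.Perm V) ω.out.1 = ω.out.1 :=
          congrArg Subtype.val (MulAction.mem_stabilizer_iff.mp hs)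
        exact Subtype.ext (hfree s s.2 _ ω.out.2 h2)
      rw [hbot]
      exact QuotientGroup.quotientBot.toEquiv
    rw [h1]
    exact dvd_mul_left _ _
  have hcardV : Nat.card {x : V // x ≠ p} = r * (k - 1) := by
    rw [Nat.card_eq_fintype_card, Fintype.card_subtype_compl, Fintype.card_subtype_eq,
      ← Finset.card_univ, hv]
    simp
  rw [hScard, hcardV] at hdvd2
  have hcop : Nat.Coprime (2 ^ m) r := by
    apply Nat.Coprime.pow_left
    rw [Nat.coprime_primes Nat.prime_two hp]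
    omega
  exact hcop.dvd_of_dvd_mul_left hdvd2

end Run7.h570.S2
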